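import Mathlib
import Pool.Agent.Helper902.NAJames

/-!
# James' theorem

A nonreflexive real Banach space carries a continuous linear functional that does not attain its
norm.  The proof is that of R. C. James (1972).
-/

set_option autoImplicit false

open Filter Topology

namespace Pool.Agent.E8helper89.WMP

variable {X : Type*} [NormedAddCommGroup X] [NormedSpace ℝ X]

/-- the convex hull of a tail of a sequence of functionals -/
def Tail (f : ℕ → (X →L[ℝ] ℝ)) (n : ℕ) : Set (X →L[ℝ] ℝ) := convexHull ℝ (f '' Set.Ici n)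

/-- the functionals between the lower and the upper limit of a sequence of functionals -/
def LS (f : ℕ → (X →L[ℝ] ℝ)) : Set (X →L[ℝ] ℝ) :=
  {w | ∀ x : X, ∀ ε : ℝ, 0 < ε → ∃ᶠ n in atTop, w x - ε < f n x}

theorem tail_mono (f : ℕ → (X →L[ℝ] ℝ)) {n m : ℕ} (h : n ≤ m) : Tail f m ⊆ Tail f n :=
  convexHull_mono (Set.image_mono (Set.Ici_subset_Ici.2 h))

theorem mem_tail (f : ℕ → (X →L[ℝ] ℝ)) (n : ℕ) : f n ∈ Tail f n :=
  subset_convexHull ℝ _ ⟨n, Set.mem_Ici.2 le_rfl, rfl⟩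

theorem tail_convex (f : ℕ → (X →L[ℝ] ℝ)) (n : ℕ) : Convex ℝ (Tail f n) := convex_convexHull ℝ _

theorem tail_sub {f g : ℕ → (X →L[ℝ] ℝ)} {n : ℕ} (h : ∀ j, n ≤ j → g j ∈ Tail f j) :
    Tail g n ⊆ Tail f n := by
  refine convexHull_min ?_ (tail_convex f n)
  rintro _ ⟨j, hj, rfl⟩
  exact tail_mono f hj (h j hj)

theorem tail_le {f : ℕ → (X →L[ℝ] ℝ)} {n : ℕ} {x : X} {c : ℝ} (h : ∀ j, n ≤ j → f j x ≤ c)
    {g : X →L[ℝ] ℝ} (hg : g ∈ Tail f n) : g x ≤ c := by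
  have hconv : Convex ℝ {v : X →L[ℝ] ℝ | v x ≤ c} := by
    intro v hv w hw a b ha hb hab
    rw [Set.mem_ofPred_eq] at hv hw ⊢
    change a * v x + b * w x ≤ c
    calc a * v x + b * w x ≤ a * c + b * c := by gcongr
      _ = c := by rw [← add_mul, hab, one_mul]
  refine convexHull_min ?_ hconv hg
  rintro _ ⟨j, hj, rfl⟩
  exact h j hj

theorem tail_norm {f : ℕ → (X →L[ℝ] ℝ)} (h : ∀ j, ‖f j‖ ≤ 1) {n : ℕ} {g : X →L[ℝ] ℝ}
    (hg : g ∈ Tail f n) : ‖g‖ ≤ 1 := by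
  have hsub : Tail f n ⊆ Metric.closedBall 0 1 := by
    refine convexHull_min ?_ (convex_closedBall _ _)
    rintro _ ⟨j, _, rfl⟩
    simpa using h j
  simpa using hsub hg

theorem LS_mono {f g : ℕ → (X →L[ℝ] ℝ)} {N : ℕ} (h : ∀ j, N ≤ j → g j ∈ Tail f j) :
    LS g ⊆ LS f := by
  intro w hw x ε hε
  by_contra hcon
  rw [not_frequently] at hcon
  obtain ⟨M, hM⟩ := eventually_atTop.1 hcon
  have h1 := hw x ε hε
  obtain ⟨j, hj, hj2⟩ := (frequently_atTop.1 h1) (max N M)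
  have h2 : g j x ≤ w x - ε := by
    refine tail_le (f := f) (n := j) (fun i hi => ?_) (h j ((le_max_left _ _).trans hj))
    exact not_lt.1 (hM i (((le_max_right _ _).trans hj).trans hi))
  linarith

theorem LS_le {f : ℕ → (X →L[ℝ] ℝ)} (h : ∀ j, ‖f j‖ ≤ 1) {w : X →L[ℝ] ℝ} (hw : w ∈ LS f) :
    ‖w‖ ≤ 1 := by
  have h1 : ∀ x, w x ≤ ‖x‖ := by
    intro x
    by_contra hcon
    push Not at hcon
    obtain ⟨j, hj⟩ := (hw x ((w x - ‖x‖)) (by linarith)).exists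
    have h2 : f j x ≤ ‖x‖ := by
      calc f j x ≤ ‖f j x‖ := Real.le_norm_self _
        _ ≤ ‖f j‖ * ‖x‖ := (f j).le_opNorm x
        _ ≤ 1 * ‖x‖ := by gcongr; exact h j
        _ = ‖x‖ := one_mul _
    linarith
  refine ContinuousLinearMap.opNorm_le_bound _ zero_le_one fun x => ?_
  rw [one_mul, Real.norm_eq_abs, abs_le]
  refine ⟨?_, h1 x⟩
  have := h1 (-x)
  rw [map_neg, norm_neg] at this
  linarith

/-- ultrafilter limits of bounded sequences of functionals -/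
theorem exists_ultralimit (U : Ultrafilter ℕ) (g : ℕ → (X →L[ℝ] ℝ)) (R : ℝ)
    (hg : ∀ n, ‖g n‖ ≤ R) :
    ∃ G : X →L[ℝ] ℝ, ‖G‖ ≤ R ∧ ∀ w, Tendsto (fun n => g n w) U (𝓝 (G w)) := by
  have hK := WeakDual.isCompact_closedBall (𝕜 := ℝ) (E := X) 0 R
  have h1 : ∀ n, StrongDual.toWeakDual (g n) ∈
      (WeakDual.toStrongDual ⁻¹' Metric.closedBall (0 : StrongDual ℝ X) R) := by
    intro n
    simpa using hg n
  have h2 := (isCompact_iff_ultrafilter_le_nhds.1 hK)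
    (U.map (fun n => StrongDual.toWeakDual (g n))) (by
      rw [le_principal_iff]
      exact Filter.mem_map.2 (Filter.Eventually.of_forall h1))
  obtain ⟨G, hG0, hG⟩ := h2
  refine ⟨WeakDual.toStrongDual G, by simpa using hG0, fun w => ?_⟩
  have h3 : Tendsto (fun n => StrongDual.toWeakDual (g n)) U (𝓝 G) := hG
  have h4 := ((WeakDual.eval_continuous w).tendsto G).comp h3
  exact h4

theorem LS_nonempty {f : ℕ → (X →L[ℝ] ℝ)} (h : ∀ j, ‖f j‖ ≤ 1) : (LS f).Nonempty := by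
  obtain ⟨G, -, hG⟩ := exists_ultralimit (hyperfilter ℕ) f 1 h
  refine ⟨G, fun x ε hε => ?_⟩
  have h1 : ∀ᶠ n in (hyperfilter ℕ : Filter ℕ), G x - ε < f n x :=
    (hG x).eventually_const_lt (by linarith)
  exact h1.frequently.filter_mono Nat.hyperfilter_le_atTop

theorem LS_eq {f : ℕ → (X →L[ℝ] ℝ)} {w : X →L[ℝ] ℝ} (hw : w ∈ LS f) {y : X} {c : ℝ}
    (h : Tendsto (fun n => f n y) atTop (𝓝 c)) : w y = c := by
  apply le_antisymm
  · by_contra hcon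
    push Not at hcon
    have h1 := hw y ((w y - c) / 2) (by linarith)
    have h2 : ∀ᶠ n in atTop, f n y < c + (w y - c) / 2 := h.eventually_lt_const (by linarith)
    obtain ⟨n, hn1, hn2⟩ := (h1.and_eventually h2).exists
    linarith
  · by_contra hcon
    push Not at hcon
    have h1 := hw (-y) ((c - w y) / 2) (by linarith)
    have h2 : ∀ᶠ n in atTop, c - (c - w y) / 2 < f n y := h.eventually_const_lt (by linarith)
    obtain ⟨n, hn1, hn2⟩ := (h1.and_eventually h2).exists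
    rw [map_neg, map_neg] at hn1
    linarith

theorem refine_seq {h : ℕ → (X →L[ℝ] ℝ)} {w : X →L[ℝ] ℝ} (hw : w ∈ LS h) (y : X) :
    ∃ h' : ℕ → (X →L[ℝ] ℝ), (∀ j, h' j ∈ Tail h j) ∧
      Tendsto (fun n => h' n y) atTop (𝓝 (w y)) := by
  have key : ∀ n : ℕ, ∃ v ∈ Tail h n, |v y - w y| ≤ 1 / ((n : ℝ) + 1) := by
    intro n
    have hpos : (0 : ℝ) < 1 / ((n : ℝ) + 1) := by positivity
    obtain ⟨i, hi, hi2⟩ := (frequently_atTop.1 (hw y _ hpos)) n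
    obtain ⟨j, hj, hj2⟩ := (frequently_atTop.1 (hw (-y) _ hpos)) n
    rw [map_neg, map_neg] at hj2
    have hti : h i ∈ Tail h n := tail_mono h hi (mem_tail h i)
    have htj : h j ∈ Tail h n := tail_mono h hj (mem_tail h j)
    by_cases h1 : h i y ≤ w y
    · exact ⟨h i, hti, abs_le.2 ⟨by linarith, by linarith⟩⟩
    · by_cases h2 : w y ≤ h j y
      · exact ⟨h j, htj, abs_le.2 ⟨by linarith, by linarith⟩⟩
      · push Not at h1 h2
        have hpos2 : 0 < h i y - h j y := by linarith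
        refine ⟨((w y - h j y) / (h i y - h j y)) • h i +
          ((h i y - w y) / (h i y - h j y)) • h j, ?_, ?_⟩
        · refine tail_convex h n hti htj (by apply div_nonneg <;> linarith)
            (by apply div_nonneg <;> linarith) ?_
          field_simp
          ring
        · have : (((w y - h j y) / (h i y - h j y)) • h i +
              ((h i y - w y) / (h i y - h j y)) • h j) y = w y := by
            change (w y - h j y) / (h i y - h j y) * h i y +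
              (h i y - w y) / (h i y - h j y) * h j y = w y
            field_simp
            ring
          rw [this, sub_self, abs_zero]
          exact hpos.le
  choose h' h1 h2 using key
  refine ⟨h', h1, ?_⟩
  rw [tendsto_iff_norm_sub_tendsto_zero]
  refine squeeze_zero (fun _ => norm_nonneg _) (fun n => ?_) tendsto_one_div_add_atTop_nhds_zero_nat
  exact h2 n

/-- the levels of the minimisation -/
def Rset (σ : X →L[ℝ] ℝ) (Λ : ℝ) (h : ℕ → (X →L[ℝ] ℝ)) (n : ℕ) : Set ℝ :=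
  {r | ∃ g ∈ Tail h n, ∃ h' : ℕ → (X →L[ℝ] ℝ), (∀ j, h' j ∈ Tail h j) ∧
    ∀ w ∈ LS h', ‖σ + Λ • g - w‖ ≤ r}

theorem Rset_nonneg {σ : X →L[ℝ] ℝ} {Λ : ℝ} {h : ℕ → (X →L[ℝ] ℝ)} {n : ℕ}
    (hh : ∀ j, ‖h j‖ ≤ 1) {r : ℝ} (hr : r ∈ Rset σ Λ h n) : 0 ≤ r := by
  obtain ⟨g, -, h', hh', hr⟩ := hr
  obtain ⟨w, hw⟩ := LS_nonempty (f := h') (fun j => tail_norm hh (hh' j))
  exact (norm_nonneg _).trans (hr w hw)

theorem Rset_bddBelow {σ : X →L[ℝ] ℝ} {Λ : ℝ} {h : ℕ → (X →L[ℝ] ℝ)} {n : ℕ}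
    (hh : ∀ j, ‖h j‖ ≤ 1) : BddBelow (Rset σ Λ h n) :=
  ⟨0, fun _ hr => Rset_nonneg hh hr⟩

theorem two_mem_Rset {σ : X →L[ℝ] ℝ} {Λ : ℝ} {h : ℕ → (X →L[ℝ] ℝ)} {n : ℕ}
    (hh : ∀ j, ‖h j‖ ≤ 1) (hΛ : 0 ≤ Λ) (hσ : ‖σ‖ ≤ 1 - Λ) : 2 ∈ Rset σ Λ h n := by
  refine ⟨h n, mem_tail h n, h, mem_tail h, fun w hw => ?_⟩
  have h1 := LS_le hh hw
  calc ‖σ + Λ • h n - w‖ ≤ ‖σ + Λ • h n‖ + ‖w‖ := norm_sub_le _ _
    _ ≤ ‖σ‖ + ‖Λ • h n‖ + ‖w‖ := by gcongr; exact norm_add_le _ _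
    _ ≤ (1 - Λ) + Λ * 1 + 1 := by
        rw [norm_smul, Real.norm_of_nonneg hΛ]
        gcongr
        exact hh n
    _ = 2 := by ring

theorem Rset_step {σ : X →L[ℝ] ℝ} {lam Λ' : ℝ} {h h' : ℕ → (X →L[ℝ] ℝ)} {n : ℕ}
    (hl : 0 < lam) (hΛ : 0 ≤ Λ') {g : X →L[ℝ] ℝ} (hg : g ∈ Tail h n)
    (hh : ∀ j, h' j ∈ Tail h j) :
    Rset (σ + lam • g) Λ' h' (n + 1) ⊆ Rset σ (lam + Λ') h n := by
  rintro r ⟨g1, hg1, h1, hh1, hr⟩
  have hpos : 0 < lam + Λ' := by linarith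
  have hg1' : g1 ∈ Tail h n :=
    tail_mono h (Nat.le_succ n) (tail_sub (fun j _ => hh j) hg1)
  refine ⟨(lam / (lam + Λ')) • g + (Λ' / (lam + Λ')) • g1, ?_, h1,
    fun j => tail_sub (fun i _ => hh i) (hh1 j), fun w hw => ?_⟩
  · refine tail_convex h n hg hg1' (by positivity) (by positivity) ?_
    field_simp
  · have h2 := hr w hw
    have h3 : σ + (lam + Λ') • ((lam / (lam + Λ')) • g + (Λ' / (lam + Λ')) • g1) - w =
        σ + lam • g + Λ' • g1 - w := by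
      rw [smul_add, smul_smul, smul_smul, mul_div_cancel₀ _ hpos.ne',
        mul_div_cancel₀ _ hpos.ne', add_assoc]
    rw [h3]
    exact h2

/-- One step of the construction. -/
theorem james_step {σ : X →L[ℝ] ℝ} {Λ : ℝ} {h : ℕ → (X →L[ℝ] ℝ)} {n : ℕ}
    (hh : ∀ j, ‖h j‖ ≤ 1) (hΛ : 0 ≤ Λ) (hσ : ‖σ‖ ≤ 1 - Λ) (ha : 0 < sInf (Rset σ Λ h n))
    {ε : ℝ} (hε : 0 < ε) :
    ∃ g ∈ Tail h n, ∃ h' : ℕ → (X →L[ℝ] ℝ), (∀ j, h' j ∈ Tail h j) ∧
      ∀ w ∈ LS h', ‖σ + Λ • g - w‖ ≤ sInf (Rset σ Λ h n) * (1 + ε) ∧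
        sInf (Rset σ Λ h n) * (1 - ε) ≤ ‖σ + Λ • g - w‖ := by
  set a := sInf (Rset σ Λ h n) with ha'
  obtain ⟨r, ⟨g, hg, h1, hh1, hr⟩, hra⟩ := exists_lt_of_csInf_lt
    (⟨2, two_mem_Rset hh hΛ hσ⟩ : (Rset σ Λ h n).Nonempty)
    (show sInf (Rset σ Λ h n) < a * (1 + ε) by rw [← ha']; nlinarith)
  have hnot : a * (1 - ε) ∉ Rset σ Λ h n := by
    intro hmem
    have := csInf_le (Rset_bddBelow hh) hmem
    rw [← ha'] at this
    nlinarith
  have hnot2 : ¬ ∀ w ∈ LS h1, ‖σ + Λ • g - w‖ ≤ a * (1 - ε) := fun hall =>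
    hnot ⟨g, hg, h1, hh1, hall⟩
  push Not at hnot2
  obtain ⟨w1, hw1, hw1'⟩ := hnot2
  -- a point which witnesses the norm
  obtain ⟨y, hy1, hy2⟩ : ∃ y : X, ‖y‖ ≤ 1 ∧ a * (1 - ε) ≤ (σ + Λ • g - w1) y := by
    rcases le_or_gt (a * (1 - ε)) 0 with hneg | hpos
    · exact ⟨0, by simp, by simpa using hneg⟩
    · obtain ⟨y, hy1, hy2⟩ := ContinuousLinearMap.exists_lt_apply_of_lt_opNorm _ hw1'
      rw [Real.norm_eq_abs] at hy2
      rcases le_total 0 ((σ + Λ • g - w1) y) with h0 | h0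
      · rw [abs_of_nonneg h0] at hy2
        exact ⟨y, hy1.le, hy2.le⟩
      · rw [abs_of_nonpos h0] at hy2
        exact ⟨-y, by rw [norm_neg]; exact hy1.le, by rw [map_neg]; exact hy2.le⟩
  obtain ⟨h2, hh2, hlim⟩ := refine_seq hw1 y
  have hh2' : ∀ j, h2 j ∈ Tail h j := fun j => tail_sub (fun i _ => hh1 i) (hh2 j)
  refine ⟨g, hg, h2, hh2', fun w hw => ⟨?_, ?_⟩⟩
  · exact (hr w (LS_mono (N := 0) (fun j _ => hh2 j) hw)).trans hra.le
  · have h3 : w y = w1 y := LS_eq hw hlim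
    have h4 : (σ + Λ • g - w) y = (σ + Λ • g - w1) y := by
      change (σ + Λ • g) y - w y = (σ + Λ • g) y - w1 y
      rw [h3]
    calc a * (1 - ε) ≤ (σ + Λ • g - w1) y := hy2
      _ = (σ + Λ • g - w) y := h4.symm
      _ ≤ ‖(σ + Λ • g - w) y‖ := Real.le_norm_self _
      _ ≤ ‖σ + Λ • g - w‖ * ‖y‖ := ContinuousLinearMap.le_opNorm _ _
      _ ≤ ‖σ + Λ • g - w‖ * 1 := by gcongr
      _ = ‖σ + Λ • g - w‖ := mul_one _

/-- the state of the construction is admissible -/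
def Inv (f : ℕ → (X →L[ℝ] ℝ)) (τ : ℝ) (n : ℕ) (s : (X →L[ℝ] ℝ) × (ℕ → (X →L[ℝ] ℝ))) : Prop :=
  ‖s.1‖ ≤ 1 - τ ^ n ∧ ∀ j, s.2 j ∈ Tail f j

/-- The abstract construction: for `τ`, `ε` the sequences `σ`, `g`, `h`. -/
theorem james_construction (f : ℕ → (X →L[ℝ] ℝ)) (hf : ∀ j, ‖f j‖ ≤ 1) {θ : ℝ} (hθ : 0 < θ)
    (h0 : θ ≤ sInf (Rset 0 1 f 0)) {τ : ℝ} (hτ : 0 < τ) (hτ1 : τ < 1) (ε : ℕ → ℝ)
    (hε : ∀ n, 0 < ε n) :
    ∃ (σ g : ℕ → (X →L[ℝ] ℝ)) (h : ℕ → ℕ → (X →L[ℝ] ℝ)) (a : ℕ → ℝ),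
      σ 0 = 0 ∧ (∀ n, σ (n + 1) = σ n + ((1 - τ) * τ ^ n) • g n) ∧
      (∀ n, g n ∈ Tail (h n) n) ∧ (∀ n j, h (n + 1) j ∈ Tail (h n) j) ∧
      (∀ n j, h n j ∈ Tail f j) ∧
      (∀ n, θ ≤ a n) ∧ (∀ n, a n ≤ 2) ∧ Monotone a ∧
      ∀ n, ∀ w ∈ LS (h (n + 1)), ‖σ n + τ ^ n • g n - w‖ ≤ a n * (1 + ε n) ∧
        a n * (1 - ε n) ≤ ‖σ n + τ ^ n • g n - w‖ := by
  classical
  let A : ℕ → (X →L[ℝ] ℝ) × (ℕ → (X →L[ℝ] ℝ)) → ℝ := fun n s => sInf (Rset s.1 (τ ^ n) s.2 n)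
  have hstep : ∀ (n : ℕ) (s : (X →L[ℝ] ℝ) × (ℕ → (X →L[ℝ] ℝ))), Inv f τ n s → 0 < A n s →
      ∃ (g : X →L[ℝ] ℝ) (h' : ℕ → (X →L[ℝ] ℝ)), g ∈ Tail s.2 n ∧ (∀ j, h' j ∈ Tail s.2 j) ∧
        ∀ w ∈ LS h', ‖s.1 + τ ^ n • g - w‖ ≤ A n s * (1 + ε n) ∧
          A n s * (1 - ε n) ≤ ‖s.1 + τ ^ n • g - w‖ := by
    intro n s hs ha
    obtain ⟨g, hg, h', hh', hw⟩ := james_step (σ := s.1) (Λ := τ ^ n) (h := s.2) (n := n)
      (fun j => tail_norm hf (hs.2 j)) (by positivity) hs.1 ha (hε n)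
    exact ⟨g, h', hg, hh', hw⟩
  choose! G H hG hH hGH using hstep
  let S : ℕ → (X →L[ℝ] ℝ) × (ℕ → (X →L[ℝ] ℝ)) := fun n =>
    Nat.rec (0, f) (fun n s => (s.1 + ((1 - τ) * τ ^ n) • G n s, H n s)) n
  have hS0 : S 0 = (0, f) := rfl
  have hS1 : ∀ n, S (n + 1) = ((S n).1 + ((1 - τ) * τ ^ n) • G n (S n), H n (S n)) := fun _ => rfl
  have hpow : ∀ n, (1 - τ) * τ ^ n + τ ^ (n + 1) = τ ^ n := fun n => by ring
  have hmonoA : ∀ n, Inv f τ n (S n) → 0 < A n (S n) → Inv f τ (n + 1) (S (n + 1)) →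
      A n (S n) ≤ A (n + 1) (S (n + 1)) := by
    intro n hI hA hI'
    have hnorm : ∀ j, ‖(S (n + 1)).2 j‖ ≤ 1 := fun j => tail_norm hf (hI'.2 j)
    have hsub : Rset (S (n + 1)).1 (τ ^ (n + 1)) (S (n + 1)).2 (n + 1) ⊆
        Rset (S n).1 (τ ^ n) (S n).2 n := by
      have h1 := Rset_step (σ := (S n).1) (lam := (1 - τ) * τ ^ n) (Λ' := τ ^ (n + 1))
        (h := (S n).2) (h' := H n (S n)) (n := n)
        (mul_pos (by linarith) (by positivity)) (by positivity) (hG n (S n) hI hA)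
        (hH n (S n) hI hA)
      rw [hpow] at h1
      exact h1
    exact csInf_le_csInf (Rset_bddBelow (fun j => tail_norm hf (hI.2 j)))
      ⟨2, two_mem_Rset hnorm (by positivity) hI'.1⟩ hsub
  have hall : ∀ n, Inv f τ n (S n) ∧ θ ≤ A n (S n) := by
    intro n
    induction n with
    | zero =>
      refine ⟨⟨by simp [hS0], fun j => by rw [hS0]; exact mem_tail f j⟩, ?_⟩
      change θ ≤ sInf (Rset (S 0).1 (τ ^ 0) (S 0).2 0)
      rw [hS0, pow_zero]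
      exact h0
    | succ n ih =>
      obtain ⟨hI, hA⟩ := ih
      have hA' : 0 < A n (S n) := by linarith
      have hI' : Inv f τ (n + 1) (S (n + 1)) := by
        refine ⟨?_, fun j => ?_⟩
        · rw [hS1]
          have hg1 : ‖G n (S n)‖ ≤ 1 :=
            tail_norm (fun j => tail_norm hf (hI.2 j)) (hG n (S n) hI hA')
          calc ‖(S n).1 + ((1 - τ) * τ ^ n) • G n (S n)‖
              ≤ ‖(S n).1‖ + ‖((1 - τ) * τ ^ n) • G n (S n)‖ := norm_add_le _ _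
            _ ≤ (1 - τ ^ n) + ((1 - τ) * τ ^ n) * 1 := by
                rw [norm_smul, Real.norm_of_nonneg (mul_nonneg (by linarith) (by positivity))]
                have h01 : (0 : ℝ) ≤ 1 - τ := by linarith
                gcongr
                exact hI.1
            _ = 1 - τ ^ (n + 1) := by ring
        · rw [hS1]
          exact tail_sub (fun i _ => hI.2 i) (hH n (S n) hI hA' j)
      exact ⟨hI', hA.trans (hmonoA n hI hA' hI')⟩
  have hpos : ∀ n, 0 < A n (S n) := fun n => hθ.trans_le (hall n).2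
  refine ⟨fun n => (S n).1, fun n => G n (S n), fun n => (S n).2, fun n => A n (S n), rfl,
    fun n => rfl, fun n => hG n _ (hall n).1 (hpos n), fun n j => hH n _ (hall n).1 (hpos n) j,
    fun n j => (hall n).1.2 j, fun n => (hall n).2, fun n => ?_, ?_, fun n w hw => ?_⟩
  · exact csInf_le (Rset_bddBelow (fun j => tail_norm hf ((hall n).1.2 j)))
      (two_mem_Rset (fun j => tail_norm hf ((hall n).1.2 j)) (by positivity) (hall n).1.1)
  · exact monotone_nat_of_le_succ fun n => hmonoA n (hall n).1 (hpos n) (hall (n + 1)).1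
  · exact hGH n _ (hall n).1 (hpos n) w hw

/-- the key estimate for the first level -/
theorem level_zero (f : ℕ → (X →L[ℝ] ℝ)) (hf : ∀ j, ‖f j‖ ≤ 1) (x : ℕ → X) (hx : ∀ n, ‖x n‖ ≤ 1)
    {θ : ℝ} (h0 : ∀ k n, n < k → f k (x n) = 0) (h1 : ∀ k n, k ≤ n → θ ≤ f k (x n)) :
    θ ≤ sInf (Rset 0 1 f 0) := by
  refine le_csInf ⟨2, two_mem_Rset hf zero_le_one (by simp)⟩ ?_
  rintro r ⟨g, hg, h', hh', hr⟩
  obtain ⟨w, hw⟩ := LS_nonempty (f := h') (fun j => tail_norm hf (hh' j))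
  have hwf : w ∈ LS f := LS_mono (N := 0) (fun j _ => hh' j) hw
  have hwx : ∀ n, w (x n) = 0 := by
    intro n
    refine LS_eq hwf (tendsto_const_nhds.congr' ?_)
    filter_upwards [eventually_gt_atTop n] with k hk
    exact (h0 k n hk).symm
  obtain ⟨K, hK⟩ : ∃ K : ℕ, ∀ k, K ≤ k → θ ≤ g (x k) := by
    have hconv : Convex ℝ {v : X →L[ℝ] ℝ | ∃ K : ℕ, ∀ k, K ≤ k → θ ≤ v (x k)} := by
      rintro v ⟨K1, hK1⟩ v' ⟨K2, hK2⟩ a b ha hb hab
      refine ⟨max K1 K2, fun k hk => ?_⟩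
      change θ ≤ a * v (x k) + b * v' (x k)
      have e1 := hK1 k ((le_max_left _ _).trans hk)
      have e2 := hK2 k ((le_max_right _ _).trans hk)
      calc θ = a * θ + b * θ := by rw [← add_mul, hab, one_mul]
        _ ≤ a * v (x k) + b * v' (x k) := by gcongr
    refine convexHull_min ?_ hconv hg
    rintro _ ⟨j, -, rfl⟩
    exact ⟨j, fun k hk => h1 j k hk⟩
  have h2 := hr w hw
  rw [zero_add, one_smul] at h2
  calc θ ≤ g (x K) := hK K le_rfl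
    _ = (g - w) (x K) := by
        change g (x K) = g (x K) - w (x K)
        rw [hwx, sub_zero]
    _ ≤ ‖(g - w) (x K)‖ := Real.le_norm_self _
    _ ≤ ‖g - w‖ * ‖x K‖ := ContinuousLinearMap.le_opNorm _ _
    _ ≤ ‖g - w‖ * 1 := by gcongr; exact hx K
    _ = ‖g - w‖ := mul_one _
    _ ≤ r := h2

/-- **James' theorem.** A nonreflexive real Banach space carries a continuous linear functional
which does not attain its norm. -/
theorem james [CompleteSpace X]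
    (hX : ¬ Function.Surjective (NormedSpace.inclusionInDoubleDual ℝ X)) :
    ∃ F : X →L[ℝ] ℝ, ∀ x : X, ‖x‖ ≤ 1 → F x < ‖F‖ := by
  obtain ⟨θ', hθ', x, f, hx, hf, hf0, hf1'⟩ := Pool.Agent.Helper902.NA.james_seq hX
  obtain ⟨θ, hθ, hθ2, hf1⟩ : ∃ θ : ℝ, 0 < θ ∧ θ < 1 ∧ ∀ k n, k ≤ n → θ ≤ f k (x n) :=
    ⟨min θ' (1 / 2), by positivity, (min_le_right _ _).trans_lt (by norm_num),
      fun k n h => (min_le_left _ _).trans (hf1' k n h)⟩
  set τ : ℝ := θ ^ 2 / 8 with hτd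
  have hτ : 0 < τ := by positivity
  have hτ1 : τ < 1 := by rw [hτd]; nlinarith
  set ε : ℕ → ℝ := fun n => τ ^ (n + 1) * (1 - θ) * (1 / 2) ^ (n + 1) with hεd
  have hε : ∀ n, 0 < ε n := fun n => by
    have : 0 < 1 - θ := by linarith
    simp only [hεd]
    positivity
  obtain ⟨σ, g, h, a, hσ0, hσ1, hg, hh, hhf, ha1, ha2, ha3, hmain⟩ :=
    james_construction f hf hθ (level_zero f hf x hx hf0 hf1) hτ hτ1 ε hε
  have hhn : ∀ n j, ‖h n j‖ ≤ 1 := fun n j => tail_norm hf (hhf n j)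
  have hgn : ∀ n, ‖g n‖ ≤ 1 := fun n => tail_norm (hhn n) (hg n)
  -- nested tails
  have hnest : ∀ n m, n ≤ m → ∀ j, h m j ∈ Tail (h n) j := by
    intro n m hnm
    induction m, hnm using Nat.le_induction with
    | base => exact fun j => mem_tail _ j
    | succ m hm ih => exact fun j => tail_sub (fun i _ => ih i) (hh m j)
  obtain ⟨w, hw⟩ := LS_nonempty (f := g) hgn
  have hwn : ‖w‖ ≤ 1 := LS_le hgn hw
  have hwh : ∀ n, w ∈ LS (h n) := fun n =>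
    LS_mono (N := n) (fun j hj => tail_sub (fun i _ => hnest n j hj i) (hg j)) hw
  -- the limit functional
  have hσd : ∀ n, dist (σ n) (σ (n + 1)) ≤ (1 - τ) * τ ^ n := by
    intro n
    rw [hσ1, dist_eq_norm, sub_add_cancel_left, norm_neg, norm_smul,
      Real.norm_of_nonneg (mul_nonneg (by linarith) (by positivity))]
    calc (1 - τ) * τ ^ n * ‖g n‖ ≤ (1 - τ) * τ ^ n * 1 := by
          have h01 : (0 : ℝ) ≤ 1 - τ := by linarith
          gcongr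
          exact hgn n
      _ = _ := mul_one _
  obtain ⟨σ', hσ'⟩ := cauchySeq_tendsto_of_complete (cauchySeq_of_le_geometric τ (1 - τ) hτ1 hσd)
  have hσe : ∀ n, ‖σ n - σ'‖ ≤ τ ^ n := by
    intro n
    have h1 := dist_le_of_le_geometric_of_tendsto τ (1 - τ) hτ1 hσd hσ' n
    rw [dist_eq_norm] at h1
    have h2 : (1 - τ) * τ ^ n / (1 - τ) = τ ^ n := by
      field_simp [show (1 - τ) ≠ 0 by linarith]
    rw [h2] at h1
    exact h1
  set F : X →L[ℝ] ℝ := σ' - w with hF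
  -- the limit of the levels
  set α : ℝ := ⨆ n, a n with hα
  have hbdd : BddAbove (Set.range a) := ⟨2, by rintro _ ⟨n, rfl⟩; exact ha2 n⟩
  have haα : ∀ n, a n ≤ α := fun n => le_ciSup hbdd n
  have hαθ : θ ≤ α := (ha1 0).trans (haα 0)
  have halim : Tendsto a atTop (𝓝 α) := tendsto_atTop_ciSup ha3 hbdd
  have hεlim : Tendsto ε atTop (𝓝 0) := by
    have h1 : Tendsto (fun n : ℕ => τ ^ (n + 1)) atTop (𝓝 0) :=
      (tendsto_pow_atTop_nhds_zero_of_lt_one hτ.le hτ1).comp (tendsto_add_atTop_nat 1)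
    have h2 : Tendsto (fun n : ℕ => ((1 : ℝ) / 2) ^ (n + 1)) atTop (𝓝 0) :=
      (tendsto_pow_atTop_nhds_zero_of_lt_one (by norm_num) (by norm_num)).comp
        (tendsto_add_atTop_nat 1)
    have h3 := (h1.mul_const (1 - θ)).mul h2
    simpa [hεd] using h3
  set V : ℕ → (X →L[ℝ] ℝ) := fun n => σ n + τ ^ n • g n - w with hV
  have hVF : Tendsto V atTop (𝓝 F) := by
    have h1 : Tendsto (fun n : ℕ => τ ^ n • g n) atTop (𝓝 0) := by
      rw [tendsto_zero_iff_norm_tendsto_zero]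
      refine squeeze_zero (fun _ => norm_nonneg _) (fun n => ?_)
        (tendsto_pow_atTop_nhds_zero_of_lt_one hτ.le hτ1)
      rw [norm_smul, Real.norm_of_nonneg (by positivity)]
      calc τ ^ n * ‖g n‖ ≤ τ ^ n * 1 := by gcongr; exact hgn n
        _ = τ ^ n := mul_one _
    have h2 := (hσ'.add h1).sub_const w
    rw [add_zero] at h2
    exact h2
  have hVn : ∀ n, ‖V n‖ ≤ a n * (1 + ε n) ∧ a n * (1 - ε n) ≤ ‖V n‖ := fun n =>
    hmain n w (hwh (n + 1))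
  have hFα : ‖F‖ = α := by
    refine tendsto_nhds_unique hVF.norm ?_
    refine tendsto_of_tendsto_of_tendsto_of_le_of_le (g := fun n => a n * (1 - ε n))
      (h := fun n => a n * (1 + ε n)) ?_ ?_ (fun n => (hVn n).2) (fun n => (hVn n).1)
    · have := halim.mul (hεlim.const_sub 1)
      simpa using this
    · have := halim.mul (hεlim.const_add 1)
      simpa using this
  -- the partial sums
  set P : ℕ → (X →L[ℝ] ℝ) := fun n => σ n - (1 - τ ^ n) • w with hP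
  have hPstep : ∀ n, P (n + 1) = τ • P n + (1 - τ) • V n := by
    intro n
    ext y
    simp only [hP, hV, hσ1]
    change (σ n) y + ((1 - τ) * τ ^ n) * (g n) y - (1 - τ ^ (n + 1)) * w y =
      τ * ((σ n) y - (1 - τ ^ n) * w y) + (1 - τ) * ((σ n) y + τ ^ n * (g n) y - w y)
    ring
  have hPn : ∀ n, ‖P n‖ ≤ α * (1 - (θ + (1 - θ) * (1 / 2) ^ n) * τ ^ n) := by
    intro n
    induction n with
    | zero =>
      simp [hP, hσ0]
    | succ n ih =>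
      rw [hPstep]
      have h1 : ‖V n‖ ≤ α * (1 + ε n) := (hVn n).1.trans (by
        have := haα n
        have := (hε n).le
        gcongr)
      calc ‖τ • P n + (1 - τ) • V n‖ ≤ ‖τ • P n‖ + ‖(1 - τ) • V n‖ := norm_add_le _ _
        _ = τ * ‖P n‖ + (1 - τ) * ‖V n‖ := by
            rw [norm_smul, norm_smul, Real.norm_of_nonneg hτ.le,
              Real.norm_of_nonneg (by linarith : (0 : ℝ) ≤ 1 - τ)]
        _ ≤ τ * (α * (1 - (θ + (1 - θ) * (1 / 2) ^ n) * τ ^ n)) + (1 - τ) * (α * (1 + ε n)) := by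
            have : (0 : ℝ) ≤ 1 - τ := by linarith
            gcongr
        _ = α * (1 - (θ + (1 - θ) * (1 / 2) ^ n) * τ ^ (n + 1)) + α * ((1 - τ) * ε n) := by ring
        _ ≤ α * (1 - (θ + (1 - θ) * (1 / 2) ^ n) * τ ^ (n + 1)) + α * (1 * ε n) := by
            have h2 := (hε n).le
            have h3 : (0 : ℝ) ≤ α := by linarith
            have h4 : 1 - τ ≤ 1 := by linarith
            gcongr
        _ = α * (1 - (θ + (1 - θ) * (1 / 2) ^ (n + 1)) * τ ^ (n + 1)) := by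
            simp only [hεd]
            ring
  have hPn' : ∀ n, ‖P n‖ ≤ α * (1 - θ * τ ^ n) := by
    intro n
    refine (hPn n).trans ?_
    have h3 : (0 : ℝ) ≤ α := by linarith
    have h4 : (0 : ℝ) ≤ (1 - θ) * (1 / 2) ^ n := mul_nonneg (by linarith) (by positivity)
    have h5 : (0 : ℝ) ≤ τ ^ n := by positivity
    gcongr
    linarith
  refine ⟨F, fun y hy => ?_⟩
  rw [hFα]
  obtain ⟨n, hn⟩ := (hw (-y) (θ ^ 2 / 2) (by positivity)).exists
  rw [map_neg, map_neg] at hn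
  have hdec : F = P n + ((1 - τ) * τ ^ n) • (g n - w) + (σ' - σ (n + 1) - τ ^ (n + 1) • w) := by
    ext z
    simp only [hP, hF, hσ1]
    change σ' z - w z = (σ n z - (1 - τ ^ n) * w z) + ((1 - τ) * τ ^ n) * (g n z - w z) +
      (σ' z - (σ n z + ((1 - τ) * τ ^ n) * g n z) - τ ^ (n + 1) * w z)
    ring
  have hbd : ∀ G : X →L[ℝ] ℝ, G y ≤ ‖G‖ := by
    intro G
    calc G y ≤ ‖G y‖ := Real.le_norm_self _
      _ ≤ ‖G‖ * ‖y‖ := G.le_opNorm y
      _ ≤ ‖G‖ * 1 := by gcongr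
      _ = ‖G‖ := mul_one _
  have e1 : P n y ≤ α * (1 - θ * τ ^ n) := (hbd _).trans (hPn' n)
  have e2 : (σ' - σ (n + 1) - τ ^ (n + 1) • w) y ≤ 2 * τ ^ (n + 1) := by
    refine (hbd _).trans ?_
    calc ‖σ' - σ (n + 1) - τ ^ (n + 1) • w‖ ≤ ‖σ' - σ (n + 1)‖ + ‖τ ^ (n + 1) • w‖ :=
          norm_sub_le _ _
      _ ≤ τ ^ (n + 1) + τ ^ (n + 1) * 1 := by
          rw [norm_smul, Real.norm_of_nonneg (by positivity), norm_sub_rev]
          gcongr
          exact hσe (n + 1)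
      _ = 2 * τ ^ (n + 1) := by ring
  have e3 : F y = P n y + ((1 - τ) * τ ^ n) * (g n y - w y) +
      (σ' - σ (n + 1) - τ ^ (n + 1) • w) y := by
    conv_lhs => rw [hdec]
    rfl
  rw [e3]
  have hτn : 0 < τ ^ n := by positivity
  have e4 : ((1 - τ) * τ ^ n) * (g n y - w y) ≤ ((1 - τ) * τ ^ n) * (θ ^ 2 / 2) := by
    have : (0 : ℝ) ≤ (1 - τ) * τ ^ n := mul_nonneg (by linarith) hτn.le
    gcongr
    linarith
  have e5 : α * (1 - θ * τ ^ n) + ((1 - τ) * τ ^ n) * (θ ^ 2 / 2) + 2 * τ ^ (n + 1) < α := by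
    have e6 : (1 - τ) * (θ ^ 2 / 2) + 2 * τ < α * θ := by
      have : θ * θ ≤ α * θ := by gcongr
      nlinarith
    have e7 : α * (1 - θ * τ ^ n) + ((1 - τ) * τ ^ n) * (θ ^ 2 / 2) + 2 * τ ^ (n + 1) =
        α + τ ^ n * ((1 - τ) * (θ ^ 2 / 2) + 2 * τ - α * θ) := by ring
    rw [e7]
    have : τ ^ n * ((1 - τ) * (θ ^ 2 / 2) + 2 * τ - α * θ) < 0 :=
      mul_neg_of_pos_of_neg hτn (by linarith)
    linarith
  linarith

end Pool.Agent.E8helper89.WMP
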