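import Mathlib
import Pool.Agent.E8helper89.WMP.James

/-!
# Separable reflexive spaces

In a separable reflexive space with a normalised weakly null sequence there are functionals `g k`
of norm at most one which converge pointwise to a functional of norm less than one, and unit vectors
`z k`, not weakly null, with `g k (z k) → 1`.
-/

set_option autoImplicit false

open Filter Topology

namespace Pool.Agent.E8helper89.WMP

variable {X : Type*} [NormedAddCommGroup X] [NormedSpace ℝ X]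


omit [NormedSpace ℝ X] in
theorem exists_phi (U : Ultrafilter ℕ) (u : ℕ → X) (hu : ∀ n, ‖u n‖ = 1) :
    ∃ φ : X → ℝ, ∀ x, Tendsto (fun n => ‖x + u n‖) U (𝓝 (φ x)) := by
  have h : ∀ x : X, ∃ a : ℝ, Tendsto (fun n => ‖x + u n‖) U (𝓝 a) := by
    intro x
    have hK : IsCompact (Set.Icc (0 : ℝ) (‖x‖ + 1)) := isCompact_Icc
    obtain ⟨a, -, ha⟩ := (isCompact_iff_ultrafilter_le_nhds.1 hK) (U.map fun n => ‖x + u n‖) (by
      rw [le_principal_iff]
      refine Filter.mem_map.2 (Eventually.of_forall fun n => ⟨norm_nonneg _, ?_⟩)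
      have := norm_add_le x (u n)
      rwa [hu n] at this)
    exact ⟨a, ha⟩
  choose φ hφ using h
  exact ⟨φ, hφ⟩

/-- The Hahn–Banach step: a functional `g` of norm at most one, equal to `f` on `G`, whose value at
`v` is as large as possible. -/
theorem hahn_banach_max (G : Submodule ℝ X) (f : X →L[ℝ] ℝ) (hf : ‖f‖ ≤ 1) (v : X) (c : ℝ)
    (hc : ∀ y ∈ G, c ≤ ‖y + v‖ - f y) :
    ∃ g : X →L[ℝ] ℝ, ‖g‖ ≤ 1 ∧ (∀ y ∈ G, g y = f y) ∧ c ≤ g v := by
  have hfy : ∀ y, f y ≤ ‖y‖ := by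
    intro y
    calc f y ≤ ‖f y‖ := Real.le_norm_self _
      _ ≤ ‖f‖ * ‖y‖ := f.le_opNorm y
      _ ≤ 1 * ‖y‖ := by gcongr
      _ = ‖y‖ := one_mul _
  -- the sublinear functional
  let N : X → ℝ := fun x => ⨅ y : G, (‖x + y‖ - f y)
  have hbdd : ∀ x : X, BddBelow (Set.range fun y : G => ‖x + y‖ - f y) := by
    intro x
    refine ⟨-‖x‖, ?_⟩
    rintro _ ⟨y, rfl⟩
    have h1 := hfy y
    have h2 : ‖(y : X)‖ ≤ ‖x + y‖ + ‖x‖ := by
      have := norm_sub_le (x + y) x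
      rwa [add_sub_cancel_left] at this
    simp only
    linarith
  have hN_le : ∀ x (y : G), N x ≤ ‖x + y‖ - f y := fun x y => ciInf_le (hbdd x) y
  have hN_pos : ∀ (r : ℝ), 0 < r → ∀ x, N (r • x) = r * N x := by
    have hle : ∀ (r : ℝ), 0 < r → ∀ x, r * N x ≤ N (r • x) := by
      intro r hr x
      refine le_ciInf fun y => ?_
      have h1 := hN_le x (r⁻¹ • y)
      have h2 : ‖r • x + y‖ = r * ‖x + (r⁻¹ • y : G)‖ := by
        rw [← Real.norm_of_nonneg hr.le, ← norm_smul, Real.norm_of_nonneg hr.le, smul_add]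
        simp [smul_smul, hr.ne']
      have h3 : f y = r * f (r⁻¹ • y : G) := by
        simp [hr.ne']
      rw [h2, h3, ← mul_sub]
      gcongr
    intro r hr x
    refine le_antisymm ?_ (hle r hr x)
    have h1 := hle r⁻¹ (inv_pos.2 hr) (r • x)
    rw [smul_smul, inv_mul_cancel₀ hr.ne', one_smul] at h1
    calc N (r • x) = r * (r⁻¹ * N (r • x)) := by rw [← mul_assoc, mul_inv_cancel₀ hr.ne', one_mul]
      _ ≤ r * N x := by gcongr
  have hN_add : ∀ x x', N (x + x') ≤ N x + N x' := by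
    intro x x'
    refine le_of_forall_pos_le_add fun ε hε => ?_
    obtain ⟨y, hy⟩ := exists_lt_of_ciInf_lt (show N x < N x + ε / 2 by linarith)
    obtain ⟨y', hy'⟩ := exists_lt_of_ciInf_lt (show N x' < N x' + ε / 2 by linarith)
    have h1 := hN_le (x + x') (y + y')
    have h2 : ‖x + x' + ((y + y' : G) : X)‖ ≤ ‖x + y‖ + ‖x' + y'‖ := by
      have : x + x' + ((y + y' : G) : X) = (x + y) + (x' + y') := by
        push_cast
        abel
      rw [this]
      exact norm_add_le _ _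
    have h3 : f ((y + y' : G) : X) = f y + f y' := by push_cast; exact map_add f _ _
    rw [h3] at h1
    linarith
  have hN0 : N 0 = 0 := by
    apply le_antisymm
    · have := hN_le 0 0
      simpa using this
    · refine le_ciInf fun y => ?_
      rw [zero_add]
      have := hfy y
      linarith
  have hcv : c ≤ N v := le_ciInf fun y => by
    rw [add_comm]
    exact hc y y.2
  -- the functional on the line through `v`
  obtain ⟨g, hg1, hg2⟩ : ∃ g : X →ₗ[ℝ] ℝ, g v = N v ∧ ∀ x, g x ≤ N x := by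
    by_cases hv : v = 0
    · have hex := exists_extension_of_le_sublinear (E := X)
        ⟨⊥, 0⟩ N hN_pos hN_add (by
          rintro ⟨x, hx⟩
          rw [Submodule.mem_bot] at hx
          subst hx
          simpa using hN0.ge)
      obtain ⟨g, -, hg⟩ := hex
      refine ⟨g, ?_, hg⟩
      rw [hv, hN0, map_zero]
    · let p : X →ₗ.[ℝ] ℝ := LinearPMap.mkSpanSingleton v (N v) hv
      have hex := exists_extension_of_le_sublinear p N hN_pos hN_add (by
        rintro ⟨x, hx⟩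
        obtain ⟨t, rfl⟩ := Submodule.mem_span_singleton.1 hx
        have h1 : p ⟨t • v, hx⟩ = t • N v := LinearPMap.mkSpanSingleton'_apply _ _ _ _ _
        rw [h1, smul_eq_mul]
        rcases lt_trichotomy t 0 with ht | ht | ht
        · have h2 := hN_add (t • v) ((-t) • v)
          rw [← add_smul, add_neg_cancel, zero_smul, hN0, hN_pos (-t) (by linarith)] at h2
          change t * N v ≤ N (t • v)
          linarith
        · subst ht
          change 0 * N v ≤ N ((0 : ℝ) • v)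
          rw [zero_smul, hN0, zero_mul]
        · exact (hN_pos t ht v).ge)
      obtain ⟨g, hg1, hg2⟩ := hex
      refine ⟨g, ?_, hg2⟩
      have hmem : v ∈ p.domain := Submodule.mem_span_singleton_self v
      have h1 := hg1 ⟨v, hmem⟩
      have h2 : p ⟨v, hmem⟩ = N v := LinearPMap.mkSpanSingleton_apply ℝ ℝ hv (N v)
      rw [← h2, ← h1]
  have hgle : ∀ x, g x ≤ ‖x‖ := by
    intro x
    have h1 := hN_le x 0
    have h2 := hg2 x
    simp only [ZeroMemClass.coe_zero, add_zero, map_zero, sub_zero] at h1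
    exact h2.trans h1
  have hgabs : ∀ x, ‖g x‖ ≤ 1 * ‖x‖ := by
    intro x
    rw [one_mul, Real.norm_eq_abs, abs_le]
    have h1 := hgle (-x)
    rw [map_neg, norm_neg] at h1
    exact ⟨by linarith, hgle x⟩
  refine ⟨g.mkContinuous 1 hgabs, g.mkContinuous_norm_le zero_le_one hgabs, fun y hy => ?_, ?_⟩
  · rw [LinearMap.mkContinuous_apply]
    have h1 : ∀ y ∈ G, g y ≤ f y := by
      intro y hy
      have h2 := hN_le y ⟨-y, G.neg_mem hy⟩
      have h3 := hg2 y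
      simp only [add_neg_cancel, norm_zero, map_neg, sub_neg_eq_add, zero_add] at h2
      exact h3.trans h2
    apply le_antisymm (h1 y hy)
    have h2 := h1 (-y) (G.neg_mem hy)
    rw [map_neg, map_neg] at h2
    linarith
  · rw [LinearMap.mkContinuous_apply, hg1]
    exact hcv

/-- The compactness step. -/
theorem finite_step (U : Ultrafilter ℕ) (u : ℕ → X) (hu : ∀ n, ‖u n‖ = 1) (φ : X → ℝ)
    (hφ : ∀ x, Tendsto (fun n => ‖x + u n‖) U (𝓝 (φ x))) (f : X →L[ℝ] ℝ) (hf : ‖f‖ < 1)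
    (c : ℝ) (hc : ∀ x, c ≤ φ x - f x) (G : Submodule ℝ X) [FiniteDimensional ℝ G]
    (ε : ℝ) (hε : 0 < ε) :
    ∀ᶠ n in (U : Filter ℕ), ∃ g : X →L[ℝ] ℝ, ‖g‖ ≤ 1 ∧ (∀ y ∈ G, g y = f y) ∧ c - ε ≤ g (u n) := by
  have hfy : ∀ y, |f y| ≤ ‖f‖ * ‖y‖ := fun y => f.le_opNorm y
  set R : ℝ := (|c| + 1) / (1 - ‖f‖) with hR
  have h1f : 0 < 1 - ‖f‖ := by linarith
  have hcomp : IsCompact (Metric.closedBall (0 : G) R) := isCompact_closedBall _ _
  obtain ⟨t, -, ht⟩ := hcomp.elim_finite_subcover_image (b := Set.univ)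
    (c := fun y : G => Metric.ball y (ε / 4)) (fun _ _ => Metric.isOpen_ball) (by
      intro y _
      simp only [Set.mem_univ, Set.iUnion_true, Set.mem_iUnion]
      exact ⟨y, Metric.mem_ball_self (by linarith)⟩)
  obtain ⟨htf, ht⟩ := ht
  have hev : ∀ᶠ n in (U : Filter ℕ), ∀ y ∈ t, φ (y : X) - ε / 4 < ‖(y : X) + u n‖ := by
    rw [htf.eventually_all]
    intro y _
    exact (hφ y).eventually_const_lt (by linarith)
  filter_upwards [hev] with n hn
  refine hahn_banach_max G f hf.le (u n) (c - ε) ?_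
  intro y hy
  rcases le_or_gt ‖y‖ R with hyR | hyR
  · have hmem : (⟨y, hy⟩ : G) ∈ Metric.closedBall (0 : G) R := by
      rw [mem_closedBall_zero_iff]
      exact hyR
    obtain ⟨y', hy', hyy⟩ := Set.mem_iUnion₂.1 (ht hmem)
    rw [Metric.mem_ball, dist_eq_norm] at hyy
    have h1 : ‖y - (y' : X)‖ < ε / 4 := hyy
    have h2 := hn y' hy'
    have h3 := hc y'
    have h4 : ‖(y' : X) + u n‖ ≤ ‖y + u n‖ + ‖y - y'‖ := by
      have := norm_sub_le (y + u n) (y - y')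
      rwa [show y + u n - (y - (y' : X)) = y' + u n by abel] at this
    have h5 : f y - f y' ≤ ‖y - (y' : X)‖ := by
      rw [← map_sub]
      calc f (y - y') ≤ |f (y - y')| := le_abs_self _
        _ ≤ ‖f‖ * ‖y - (y' : X)‖ := hfy _
        _ ≤ 1 * ‖y - (y' : X)‖ := by gcongr
        _ = _ := one_mul _
    linarith
  · have h1 : f y ≤ ‖f‖ * ‖y‖ := (le_abs_self _).trans (hfy y)
    have h2 : ‖y‖ - 1 ≤ ‖y + u n‖ := by
      have := norm_sub_norm_le y (-(u n))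
      rw [norm_neg, hu n, sub_neg_eq_add] at this
      exact this
    have h3 : |c| + 1 < (1 - ‖f‖) * ‖y‖ := by
      rw [hR, div_lt_iff₀ h1f] at hyR
      linarith
    have h4 := le_abs_self c
    linarith

/-- `φ` has subgradients. -/
theorem subgradient (U : Ultrafilter ℕ) (u : ℕ → X) (φ : X → ℝ)
    (hφ : ∀ x, Tendsto (fun n => ‖x + u n‖) U (𝓝 (φ x))) (x : X) :
    ∃ h : X →L[ℝ] ℝ, ∀ y, φ x + h (y - x) ≤ φ y := by
  choose g hg1 hg2 using fun n => exists_dual_vector'' ℝ (x + u n)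
  obtain ⟨h, -, hh⟩ := exists_ultralimit U g 1 hg1
  refine ⟨h, fun y => ?_⟩
  have h1 : Tendsto (fun n => ‖x + u n‖ + g n (y - x)) U (𝓝 (φ x + h (y - x))) :=
    (hφ x).add (hh (y - x))
  refine le_of_tendsto_of_tendsto h1 (hφ y) (Eventually.of_forall fun n => ?_)
  have h2 : g n (x + u n) = ‖x + u n‖ := hg2 n
  change ‖x + u n‖ + g n (y - x) ≤ ‖y + u n‖
  rw [← h2, ← map_add, show x + u n + (y - x) = y + u n by abel]
  calc g n (y + u n) ≤ ‖g n (y + u n)‖ := Real.le_norm_self _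
    _ ≤ ‖g n‖ * ‖y + u n‖ := (g n).le_opNorm _
    _ ≤ 1 * ‖y + u n‖ := by gcongr; exact hg1 n
    _ = _ := one_mul _

theorem norm_le_phi (U : Ultrafilter ℕ) (u : ℕ → X) (φ : X → ℝ)
    (hφ : ∀ x, Tendsto (fun n => ‖x + u n‖) U (𝓝 (φ x)))
    (hu0 : ∀ h : X →L[ℝ] ℝ, Tendsto (fun n => h (u n)) U (𝓝 0)) (x : X) : ‖x‖ ≤ φ x := by
  obtain ⟨g, hg1, hg2⟩ := exists_dual_vector'' ℝ x
  have h1 : Tendsto (fun n => g x + g (u n)) U (𝓝 (g x + 0)) := (hu0 g).const_add _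
  have h2 : g x = ‖x‖ := hg2
  rw [add_zero, h2] at h1
  refine le_of_tendsto_of_tendsto h1 (hφ x) (Eventually.of_forall fun n => ?_)
  change ‖x‖ + g (u n) ≤ ‖x + u n‖
  rw [← h2, ← map_add]
  calc g (x + u n) ≤ ‖g (x + u n)‖ := Real.le_norm_self _
    _ ≤ ‖g‖ * ‖x + u n‖ := g.le_opNorm _
    _ ≤ 1 * ‖x + u n‖ := by gcongr
    _ = _ := one_mul _

/-- In a reflexive space `φ - f` attains its minimum if `‖f‖ < 1`. -/
theorem exists_min (hrefl : Function.Surjective (NormedSpace.inclusionInDoubleDual ℝ X))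
    (U : Ultrafilter ℕ) (u : ℕ → X) (φ : X → ℝ)
    (hφ : ∀ x, Tendsto (fun n => ‖x + u n‖) U (𝓝 (φ x)))
    (hu0 : ∀ h : X →L[ℝ] ℝ, Tendsto (fun n => h (u n)) U (𝓝 0)) (f : X →L[ℝ] ℝ) (hf : ‖f‖ < 1) :
    ∃ x₀ : X, ∀ x, φ x₀ - f x₀ ≤ φ x - f x := by
  have h1f : 0 < 1 - ‖f‖ := by linarith
  have hlow : ∀ x, (1 - ‖f‖) * ‖x‖ ≤ φ x - f x := by
    intro x
    have h1 := norm_le_phi U u φ hφ hu0 x
    have h2 : f x ≤ ‖f‖ * ‖x‖ := (Real.le_norm_self _).trans (f.le_opNorm x)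
    linarith
  set m : ℝ := ⨅ x, (φ x - f x) with hm
  have hbdd : BddBelow (Set.range fun x => φ x - f x) := by
    refine ⟨0, ?_⟩
    rintro _ ⟨x, rfl⟩
    exact (mul_nonneg h1f.le (norm_nonneg x)).trans (hlow x)
  have hmle : ∀ x, m ≤ φ x - f x := fun x => ciInf_le hbdd x
  have hseq : ∀ j : ℕ, ∃ x, φ x - f x < m + 1 / ((j : ℝ) + 1) := by
    intro j
    have : m < m + 1 / ((j : ℝ) + 1) := by
      have : (0 : ℝ) < 1 / ((j : ℝ) + 1) := by positivity
      linarith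
    exact exists_lt_of_ciInf_lt this
  choose x hx using hseq
  set R : ℝ := (m + 1) / (1 - ‖f‖) with hR
  have hxR : ∀ j, ‖x j‖ ≤ R := by
    intro j
    rw [hR, le_div_iff₀ h1f]
    have h1 := hlow (x j)
    have h2 := hx j
    have h3 : 1 / ((j : ℝ) + 1) ≤ 1 := by
      rw [div_le_one (by positivity)]
      linarith [(Nat.cast_nonneg j : (0 : ℝ) ≤ j)]
    linarith
  obtain ⟨Φ, -, hΦ⟩ := exists_ultralimit (hyperfilter ℕ)
    (fun j => NormedSpace.inclusionInDoubleDual ℝ X (x j)) R (fun j =>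
      (NormedSpace.double_dual_bound ℝ X (x j)).trans (hxR j))
  obtain ⟨x₀, rfl⟩ := hrefl Φ
  have hlim : ∀ h : X →L[ℝ] ℝ, Tendsto (fun j => h (x j)) (hyperfilter ℕ) (𝓝 (h x₀)) :=
    fun h => hΦ h
  refine ⟨x₀, fun y => le_trans ?_ (hmle y)⟩
  obtain ⟨h, hh⟩ := subgradient U u φ hφ x₀
  have h1 : Tendsto (fun j => φ x₀ + (h (x j) - h x₀) - f (x j)) (hyperfilter ℕ)
      (𝓝 (φ x₀ + (h x₀ - h x₀) - f x₀)) :=
    (((hlim h).sub_const _).const_add _).sub (hlim f)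
  rw [sub_self, add_zero] at h1
  have h2 : Tendsto (fun j : ℕ => m + 1 / ((j : ℝ) + 1)) (hyperfilter ℕ) (𝓝 (m + 0)) :=
    (tendsto_one_div_add_atTop_nhds_zero_nat.mono_left Nat.hyperfilter_le_atTop).const_add _
  rw [add_zero] at h2
  refine le_of_tendsto_of_tendsto h1 h2 (Eventually.of_forall fun j => ?_)
  have h3 := hh (x j)
  have h4 := (hx j).le
  rw [map_sub] at h3
  change φ x₀ + (h (x j) - h x₀) - f (x j) ≤ m + 1 / ((j : ℝ) + 1)
  linarith

/-- A weakly null sequence is not of type `ℓ₁`. -/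
theorem not_l1 (U : Ultrafilter ℕ) (hU : (U : Filter ℕ) ≤ atTop) (u : ℕ → X)
    (hu : ∀ n, ‖u n‖ = 1) (φ : X → ℝ)
    (hφ : ∀ x, Tendsto (fun n => ‖x + u n‖) U (𝓝 (φ x)))
    (hu0 : ∀ h : X →L[ℝ] ℝ, Tendsto (fun n => h (u n)) atTop (𝓝 0)) :
    ∃ x, φ x < 1 + ‖x‖ := by
  classical
  by_contra hcon
  push Not at hcon
  let Good : Finset ℕ → Prop := fun s => ∃ f : X →L[ℝ] ℝ, ‖f‖ < 1 ∧ ∀ n ∈ s, 1 / 2 < f (u n)
  have hstep : ∀ s, Good s → ∀ N, ∃ n, N ≤ n ∧ Good (insert n s) := by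
    rintro s ⟨f, hf, hfs⟩ N
    have hfin : FiniteDimensional ℝ (Submodule.span ℝ ((fun n => u n) '' (s : Set ℕ))) :=
      FiniteDimensional.span_of_finite ℝ (s.finite_toSet.image _)
    have h1 := finite_step U u hu φ hφ f hf 1 (fun x => by
      have h2 : f x ≤ ‖x‖ := by
        calc f x ≤ ‖f x‖ := Real.le_norm_self _
          _ ≤ ‖f‖ * ‖x‖ := f.le_opNorm x
          _ ≤ 1 * ‖x‖ := by gcongr
          _ = _ := one_mul _
      linarith [hcon x]) (Submodule.span ℝ ((fun n => u n) '' (s : Set ℕ))) (1 / 4) (by norm_num)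
    have h2 : ∀ᶠ n in (U : Filter ℕ), N ≤ n := (eventually_ge_atTop N).filter_mono hU
    obtain ⟨n, ⟨g, hg1, hg2, hg3⟩, hn⟩ := (h1.and h2).exists
    refine ⟨n, hn, ?_⟩
    have hgs : ∀ m ∈ insert n s, 1 / 2 < g (u m) := by
      intro m hm
      rcases Finset.mem_insert.1 hm with rfl | hm
      · linarith
      · rw [hg2 (u m) (Submodule.subset_span ⟨m, hm, rfl⟩)]
        exact hfs m hm
    have h3 : ∀ᶠ r in 𝓝[<] (1 : ℝ), ∀ m ∈ insert n s, 1 / 2 < r * g (u m) := by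
      rw [Finset.eventually_all]
      intro m hm
      have h4 : Tendsto (fun r : ℝ => r * g (u m)) (𝓝[<] 1) (𝓝 (1 * g (u m))) :=
        (tendsto_id.mul_const _).mono_left nhdsWithin_le_nhds
      rw [one_mul] at h4
      exact h4.eventually_const_lt (hgs m hm)
    have h4 : ∀ᶠ r in 𝓝[<] (1 : ℝ), 0 < r :=
      (tendsto_id.mono_left nhdsWithin_le_nhds : Tendsto (fun r : ℝ => r) (𝓝[<] 1)
        (𝓝 1)).eventually_const_lt one_pos
    have h5 : ∀ᶠ r in 𝓝[<] (1 : ℝ), r < 1 := self_mem_nhdsWithin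
    obtain ⟨r, hr1, hr2, hr3⟩ := (h3.and (h4.and h5)).exists
    refine ⟨r • g, ?_, fun m hm => hr1 m hm⟩
    rw [norm_smul, Real.norm_of_nonneg hr2.le]
    calc r * ‖g‖ ≤ r * 1 := by gcongr
      _ < 1 := by linarith
  choose! nx hnx1 hnx2 using hstep
  -- the sequence of finite sets
  let S : ℕ → Finset ℕ := fun k => Nat.rec ∅ (fun k s => insert (nx s k) s) k
  have hS0 : S 0 = ∅ := rfl
  have hS1 : ∀ k, S (k + 1) = insert (nx (S k) k) (S k) := fun _ => rfl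
  have hgood : ∀ k, Good (S k) := by
    intro k
    induction k with
    | zero => exact ⟨0, by simp, by simp [hS0]⟩
    | succ k ih => rw [hS1]; exact hnx2 _ ih k
  have hmono : ∀ k l, k ≤ l → S k ⊆ S l := by
    intro k l hkl
    induction l, hkl using Nat.le_induction with
    | base => exact subset_rfl
    | succ l _ ih => exact ih.trans (by rw [hS1]; exact Finset.subset_insert _ _)
  choose f hf1 hf2 using hgood
  obtain ⟨F, -, hF⟩ := exists_ultralimit (hyperfilter ℕ) f 1 (fun k => (hf1 k).le)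
  have hFn : ∀ k, 1 / 2 ≤ F (u (nx (S k) k)) := by
    intro k
    refine ge_of_tendsto (hF _) ?_
    have : ∀ᶠ l in (hyperfilter ℕ : Filter ℕ), k + 1 ≤ l :=
      (eventually_ge_atTop (k + 1)).filter_mono Nat.hyperfilter_le_atTop
    filter_upwards [this] with l hl
    refine (hf2 l _ (hmono (k + 1) l hl ?_)).le
    rw [hS1]
    exact Finset.mem_insert_self _ _
  have hlim : Tendsto (fun k => nx (S k) k) atTop atTop :=
    tendsto_atTop_mono (fun k => hnx1 _ ⟨f k, hf1 k, hf2 k⟩ k) tendsto_id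
  have h1 : Tendsto (fun k => F (u (nx (S k) k))) atTop (𝓝 0) := (hu0 F).comp hlim
  have h2 := ge_of_tendsto h1 (Eventually.of_forall hFn)
  norm_num at h2

/-- **The core.** -/
theorem core [TopologicalSpace.SeparableSpace X]
    (hrefl : Function.Surjective (NormedSpace.inclusionInDoubleDual ℝ X)) (u : ℕ → X)
    (hu : ∀ n, ‖u n‖ = 1)
    (hu0 : ∀ h : X →L[ℝ] ℝ, Tendsto (fun n => h (u n)) atTop (𝓝 0)) :
    ∃ (f : X →L[ℝ] ℝ) (g : ℕ → (X →L[ℝ] ℝ)) (z : ℕ → X) (h : X →L[ℝ] ℝ) (c : ℝ),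
      ‖f‖ < 1 ∧ (∀ k, ‖g k‖ ≤ 1) ∧ (∀ x, Tendsto (fun k => g k x) atTop (𝓝 (f x))) ∧
      (∀ k, ‖z k‖ = 1) ∧ Tendsto (fun k => g k (z k)) atTop (𝓝 1) ∧
      Tendsto (fun k => h (z k)) atTop (𝓝 c) ∧ c ≠ 0 := by
  classical
  let U : Ultrafilter ℕ := hyperfilter ℕ
  have hU : (U : Filter ℕ) ≤ atTop := Nat.hyperfilter_le_atTop
  obtain ⟨φ, hφ⟩ := exists_phi U u hu
  have hu0U : ∀ h : X →L[ℝ] ℝ, Tendsto (fun n => h (u n)) U (𝓝 0) := fun h => (hu0 h).mono_left hU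
  obtain ⟨x₁, hx₁⟩ := not_l1 U hU u hu φ hφ hu0
  have hφ0 : φ 0 = 1 := by
    refine tendsto_nhds_unique (hφ 0) ?_
    simp only [zero_add, hu]
    exact tendsto_const_nhds
  -- the functional `f`
  obtain ⟨f, hf, hfx⟩ : ∃ f : X →L[ℝ] ℝ, ‖f‖ < 1 ∧ φ x₁ - f x₁ < 1 := by
    obtain ⟨g, hg1, hg2⟩ := exists_dual_vector'' ℝ x₁
    have hg2' : g x₁ = ‖x₁‖ := hg2
    have h3 : Tendsto (fun r : ℝ => φ x₁ - r * ‖x₁‖) (𝓝[<] 1) (𝓝 (φ x₁ - 1 * ‖x₁‖)) :=
      ((tendsto_id.mul_const _).const_sub _).mono_left nhdsWithin_le_nhds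
    have h4 : ∀ᶠ r in 𝓝[<] (1 : ℝ), φ x₁ - r * ‖x₁‖ < 1 :=
      h3.eventually_lt_const (by linarith)
    have h5 : ∀ᶠ r in 𝓝[<] (1 : ℝ), 0 < r :=
      (tendsto_id.mono_left nhdsWithin_le_nhds : Tendsto (fun r : ℝ => r) (𝓝[<] 1)
        (𝓝 1)).eventually_const_lt one_pos
    have h6 : ∀ᶠ r in 𝓝[<] (1 : ℝ), r < 1 := self_mem_nhdsWithin
    obtain ⟨r, hr1, hr2, hr3⟩ := (h4.and (h5.and h6)).exists
    refine ⟨r • g, ?_, ?_⟩
    · rw [norm_smul, Real.norm_of_nonneg hr2.le]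
      calc r * ‖g‖ ≤ r * 1 := by gcongr
        _ < 1 := by linarith
    · change φ x₁ - r * g x₁ < 1
      rw [hg2']
      exact hr1
  obtain ⟨x₀, hx₀⟩ := exists_min hrefl U u φ hφ hu0U f hf
  have hx₀0 : x₀ ≠ 0 := by
    rintro rfl
    have h1 := hx₀ x₁
    rw [hφ0, map_zero] at h1
    linarith
  have hφpos : 0 < φ x₀ := (norm_pos_iff.2 hx₀0).trans_le (norm_le_phi U u φ hφ hu0U x₀)
  -- the subspaces
  have : Nonempty X := ⟨0⟩
  let d := TopologicalSpace.denseSeq X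
  let G : ℕ → Submodule ℝ X := fun k => Submodule.span ℝ (insert x₀ (d '' Set.Iic k))
  have hGfin : ∀ k, FiniteDimensional ℝ (G k) := fun k =>
    FiniteDimensional.span_of_finite ℝ (((Set.finite_Iic k).image d).insert x₀)
  have hkey : ∀ k : ℕ, ∃ (n : ℕ) (g : X →L[ℝ] ℝ), k ≤ n ∧ ‖g‖ ≤ 1 ∧ (∀ y ∈ G k, g y = f y) ∧
      (φ x₀ - f x₀) - 1 / ((k : ℝ) + 1) ≤ g (u n) ∧
      |‖x₀ + u n‖ - φ x₀| < 1 / ((k : ℝ) + 1) ∧ x₀ + u n ≠ 0 := by
    intro k
    have := hGfin k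
    have hpos : (0 : ℝ) < 1 / ((k : ℝ) + 1) := by positivity
    have h1 := finite_step U u hu φ hφ f hf (φ x₀ - f x₀) hx₀ (G k) _ hpos
    have h2 : ∀ᶠ n in (U : Filter ℕ), k ≤ n := (eventually_ge_atTop k).filter_mono hU
    have h3 : ∀ᶠ n in (U : Filter ℕ), |‖x₀ + u n‖ - φ x₀| < 1 / ((k : ℝ) + 1) := by
      have := (hφ x₀).eventually (Metric.ball_mem_nhds (φ x₀) hpos)
      filter_upwards [this] with n hn
      rwa [Real.dist_eq] at hn
    have h4 : ∀ᶠ n in (U : Filter ℕ), 0 < ‖x₀ + u n‖ := (hφ x₀).eventually_const_lt hφpos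
    obtain ⟨n, ⟨g, hg1, hg2, hg3⟩, hn2, hn3, hn4⟩ := (h1.and (h2.and (h3.and h4))).exists
    exact ⟨n, g, hn2, hg1, hg2, hg3, hn3, norm_pos_iff.1 hn4⟩
  choose N g hN hg1 hg2 hg3 hg4 hg5 using hkey
  have hNlim : Tendsto N atTop atTop := tendsto_atTop_mono hN tendsto_id
  -- convergence of the norms
  have hlimz : Tendsto (fun k => ‖x₀ + u (N k)‖) atTop (𝓝 (φ x₀)) := by
    rw [tendsto_iff_norm_sub_tendsto_zero]
    exact squeeze_zero (fun _ => norm_nonneg _) (fun k => (hg4 k).le)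
      tendsto_one_div_add_atTop_nhds_zero_nat
  obtain ⟨h, hh1, hh2⟩ := exists_dual_vector'' ℝ x₀
  have hh2' : h x₀ = ‖x₀‖ := hh2
  refine ⟨f, g, fun k => ‖x₀ + u (N k)‖⁻¹ • (x₀ + u (N k)), h, (φ x₀)⁻¹ * ‖x₀‖, hf, hg1, ?_, ?_,
    ?_, ?_, ?_⟩
  · -- pointwise convergence
    intro x
    rw [Metric.tendsto_atTop]
    intro ε hε
    obtain ⟨j, hj⟩ := (TopologicalSpace.denseRange_denseSeq X).exists_dist_lt x
      (show 0 < ε / 2 by linarith)
    refine ⟨j, fun k hk => ?_⟩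
    have hmem : d j ∈ G k := Submodule.subset_span (Or.inr ⟨j, hk, rfl⟩)
    have h1 := hg2 k _ hmem
    rw [Real.dist_eq]
    rw [dist_eq_norm] at hj
    have h2 : g k x - f x = g k (x - d j) - f (x - d j) := by
      rw [map_sub, map_sub, h1]
      ring
    rw [h2]
    have h3 : |g k (x - d j)| ≤ 1 * ‖x - d j‖ :=
      ((g k).le_opNorm _).trans (by gcongr; exact hg1 k)
    have h4 : |f (x - d j)| ≤ 1 * ‖x - d j‖ := (f.le_opNorm _).trans (by gcongr)
    have h5 := abs_sub (g k (x - d j)) (f (x - d j))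
    have hj' : ‖x - d j‖ < ε / 2 := hj
    linarith
  · intro k
    rw [norm_smul, norm_inv, norm_norm, inv_mul_cancel₀ (norm_ne_zero_iff.2 (hg5 k))]
  · -- the norms of the images
    have hup : ∀ k, g k (‖x₀ + u (N k)‖⁻¹ • (x₀ + u (N k))) ≤ 1 := by
      intro k
      calc g k (‖x₀ + u (N k)‖⁻¹ • (x₀ + u (N k)))
          ≤ ‖g k (‖x₀ + u (N k)‖⁻¹ • (x₀ + u (N k)))‖ := Real.le_norm_self _
        _ ≤ ‖g k‖ * ‖‖x₀ + u (N k)‖⁻¹ • (x₀ + u (N k))‖ := (g k).le_opNorm _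
        _ ≤ 1 * 1 := by
            gcongr
            · exact hg1 k
            · rw [norm_smul, norm_inv, norm_norm, inv_mul_cancel₀ (norm_ne_zero_iff.2 (hg5 k))]
        _ = 1 := one_mul _
    have hlow : ∀ k, ‖x₀ + u (N k)‖⁻¹ * (φ x₀ - 1 / ((k : ℝ) + 1)) ≤
        g k (‖x₀ + u (N k)‖⁻¹ • (x₀ + u (N k))) := by
      intro k
      rw [map_smul, smul_eq_mul, map_add, hg2 k x₀ (Submodule.subset_span (Or.inl rfl))]
      have := hg3 k
      gcongr
      linarith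
    have hlim1 : Tendsto (fun k : ℕ => ‖x₀ + u (N k)‖⁻¹ * (φ x₀ - 1 / ((k : ℝ) + 1))) atTop
        (𝓝 1) := by
      have h1 := (hlimz.inv₀ hφpos.ne').mul
        (tendsto_one_div_add_atTop_nhds_zero_nat.const_sub (φ x₀))
      rw [sub_zero, inv_mul_cancel₀ hφpos.ne'] at h1
      exact h1
    exact tendsto_of_tendsto_of_tendsto_of_le_of_le hlim1 tendsto_const_nhds hlow hup
  · have h1 : Tendsto (fun k => ‖x₀ + u (N k)‖⁻¹ * (h x₀ + h (u (N k)))) atTop
        (𝓝 ((φ x₀)⁻¹ * (h x₀ + 0))) :=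
      (hlimz.inv₀ hφpos.ne').mul (((hu0 h).comp hNlim).const_add _)
    rw [add_zero, hh2'] at h1
    refine h1.congr fun k => ?_
    rw [map_smul, smul_eq_mul, map_add, hh2']
  · exact mul_ne_zero (inv_ne_zero hφpos.ne') (norm_ne_zero_iff.2 hx₀0)

end Pool.Agent.E8helper89.WMP
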