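import Mathlib
import Pool.Agent.E8helper89.WMP.Core

/-!
# Reduction to separable quotients
-/

set_option autoImplicit false

open Filter Topology TopologicalSpace

namespace Pool.Agent.E8helper89.WMP

variable {E X : Type*} [NormedAddCommGroup E] [NormedSpace ℝ E] [NormedAddCommGroup X]
  [NormedSpace ℝ X]

/-- metric quotient maps -/
structure MetricQuot (Q : E →L[ℝ] X) : Prop where
  le : ∀ e, ‖Q e‖ ≤ ‖e‖
  lift : ∀ x : X, ∀ ε : ℝ, 0 < ε → ∃ e, Q e = x ∧ ‖e‖ < ‖x‖ + ε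

theorem norm_comp_quot {Q : E →L[ℝ] X} (hQ : MetricQuot Q) (g : X →L[ℝ] ℝ) :
    ‖g.comp Q‖ = ‖g‖ := by
  apply le_antisymm
  · refine ContinuousLinearMap.opNorm_le_bound _ (norm_nonneg _) fun e => ?_
    calc ‖g (Q e)‖ ≤ ‖g‖ * ‖Q e‖ := g.le_opNorm _
      _ ≤ ‖g‖ * ‖e‖ := by gcongr; exact hQ.le e
  · refine ContinuousLinearMap.opNorm_le_bound _ (norm_nonneg _) fun x => ?_
    refine le_of_forall_pos_le_add fun ε hε => ?_
    obtain ⟨e, he1, he2⟩ := hQ.lift x (ε / (‖g.comp Q‖ + 1)) (by positivity)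
    calc ‖g x‖ = ‖(g.comp Q) e‖ := by rw [ContinuousLinearMap.comp_apply, he1]
      _ ≤ ‖g.comp Q‖ * ‖e‖ := (g.comp Q).le_opNorm e
      _ ≤ ‖g.comp Q‖ * (‖x‖ + ε / (‖g.comp Q‖ + 1)) := by gcongr
      _ = ‖g.comp Q‖ * ‖x‖ + ε * (‖g.comp Q‖ / (‖g.comp Q‖ + 1)) := by ring
      _ ≤ ‖g.comp Q‖ * ‖x‖ + ε * 1 := by
          gcongr
          rw [div_le_one (by positivity)]
          linarith
      _ = _ := by rw [mul_one]

/-- Quotients of reflexive spaces are reflexive. -/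
theorem quot_reflexive {Q : E →L[ℝ] X} (hQ : MetricQuot Q)
    (hE : Function.Surjective (NormedSpace.inclusionInDoubleDual ℝ E)) :
    Function.Surjective (NormedSpace.inclusionInDoubleDual ℝ X) := by
  intro Φ
  let D : (X →L[ℝ] ℝ) →ₗᵢ[ℝ] (E →L[ℝ] ℝ) :=
    { toFun := fun g => g.comp Q
      map_add' := fun g g' => by ext; rfl
      map_smul' := fun c g => by ext; rfl
      norm_map' := fun g => norm_comp_quot hQ g }
  let W := LinearMap.range D.toLinearMap
  let ψ : W →L[ℝ] ℝ := Φ.comp (D.equivRange.symm.toContinuousLinearEquiv : W →L[ℝ] (X →L[ℝ] ℝ))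
  obtain ⟨Ψ, hΨ, -⟩ := exists_extension_norm_eq W ψ
  obtain ⟨e, rfl⟩ := hE Ψ
  refine ⟨Q e, ?_⟩
  ext g
  have h1 := hΨ ⟨D g, ⟨g, rfl⟩⟩
  have h2 : ψ ⟨D g, ⟨g, rfl⟩⟩ = Φ g := by
    change Φ (D.equivRange.symm ⟨D g, ⟨g, rfl⟩⟩) = Φ g
    congr 1
    rw [LinearIsometryEquiv.symm_apply_eq]
    rfl
  rw [h2] at h1
  rw [← h1]
  rfl

/-- In a reflexive space a separating sequence of functionals has dense span. -/
theorem dense_of_separating (hX : Function.Surjective (NormedSpace.inclusionInDoubleDual ℝ X))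
    (y : ℕ → (X →L[ℝ] ℝ)) (hy : ∀ x : X, (∀ i, y i x = 0) → x = 0) :
    (Submodule.span ℝ (Set.range y)).topologicalClosure = ⊤ := by
  by_contra hne
  obtain ⟨h, hh⟩ : ∃ h, h ∉ (Submodule.span ℝ (Set.range y)).topologicalClosure := by
    by_contra hall
    push Not at hall
    exact hne (Submodule.eq_top_iff'.2 hall)
  obtain ⟨Φ, u, h1, h2⟩ := geometric_hahn_banach_closed_point
    (Submodule.convex _) (Submodule.isClosed_topologicalClosure _) hh
  have hz : ∀ g ∈ (Submodule.span ℝ (Set.range y)).topologicalClosure, Φ g = 0 := by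
    intro g hg
    by_contra hne
    have h3 := h1 (((u + 1) / Φ g) • g) (Submodule.smul_mem _ _ hg)
    rw [map_smul, smul_eq_mul, div_mul_cancel₀ _ hne] at h3
    linarith
  have h0 : 0 < u := by simpa using h1 0 (Submodule.zero_mem _)
  obtain ⟨x, rfl⟩ := hX Φ
  have hx : x = 0 := by
    apply hy
    intro i
    exact hz (y i) (Submodule.le_topologicalClosure _ (Submodule.subset_span ⟨i, rfl⟩))
  rw [hx] at h2
  simp at h2
  linarith

theorem separable_dual (y : ℕ → (X →L[ℝ] ℝ))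
    (hy : (Submodule.span ℝ (Set.range y)).topologicalClosure = ⊤) :
    SeparableSpace (X →L[ℝ] ℝ) := by
  rw [← isSeparable_univ_iff]
  have h1 : IsSeparable (Set.range y) := (Set.countable_range y).isSeparable
  have h2 := (h1.span (R := ℝ)).closure
  have h3 : closure ((Submodule.span ℝ (Set.range y) : Submodule ℝ (X →L[ℝ] ℝ)) :
      Set (X →L[ℝ] ℝ)) = Set.univ := by
    rw [← Submodule.topologicalClosure_coe, hy]
    rfl
  rwa [h3] at h2

/-- A normed space with separable dual is separable. -/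
theorem separable_of_dual [SeparableSpace (X →L[ℝ] ℝ)] : SeparableSpace X := by
  have hne : Nonempty (X →L[ℝ] ℝ) := ⟨0⟩
  let h := denseSeq (X →L[ℝ] ℝ)
  have hx : ∀ j, ∃ x : X, ‖x‖ ≤ 1 ∧ ‖h j‖ / 2 ≤ |h j x| := by
    intro j
    rcases (norm_nonneg (h j)).eq_or_lt with h0 | h0
    · exact ⟨0, by simp, by rw [← h0]; simp⟩
    · obtain ⟨x, hx1, hx2⟩ := (h j).exists_lt_apply_of_lt_opNorm (show ‖h j‖ / 2 < ‖h j‖ by linarith)
      exact ⟨x, hx1.le, hx2.le⟩
  choose x hx1 hx2 using hx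
  have htop : (Submodule.span ℝ (Set.range x)).topologicalClosure = ⊤ := by
    by_contra hne
    obtain ⟨z, hz⟩ : ∃ z, z ∉ (Submodule.span ℝ (Set.range x)).topologicalClosure := by
      by_contra hall
      push Not at hall
      exact hne (Submodule.eq_top_iff'.2 hall)
    obtain ⟨g, u, h1, h2⟩ := geometric_hahn_banach_closed_point
      (Submodule.convex _) (Submodule.isClosed_topologicalClosure _) hz
    have hg0 : ∀ v ∈ (Submodule.span ℝ (Set.range x)).topologicalClosure, g v = 0 := by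
      intro v hv
      by_contra hne
      have h3 := h1 (((u + 1) / g v) • v) (Submodule.smul_mem _ _ hv)
      rw [map_smul, smul_eq_mul, div_mul_cancel₀ _ hne] at h3
      linarith
    have h0 : 0 < u := by simpa using h1 0 (Submodule.zero_mem _)
    have hg : 0 < ‖g‖ := by
      rw [norm_pos_iff]
      rintro rfl
      simp at h2
      linarith
    obtain ⟨j, hj⟩ := (denseRange_denseSeq (X →L[ℝ] ℝ)).exists_dist_lt g
      (show 0 < ‖g‖ / 4 by linarith)
    rw [dist_eq_norm] at hj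
    have h3 : g (x j) = 0 := hg0 _ (Submodule.le_topologicalClosure _
      (Submodule.subset_span ⟨j, rfl⟩))
    have h4 : |h j (x j)| ≤ ‖g - h j‖ := by
      have h5 : h j (x j) = -((g - h j) (x j)) := by
        change h j (x j) = -(g (x j) - h j (x j))
        rw [h3]
        ring
      rw [h5, abs_neg]
      calc |(g - h j) (x j)| ≤ ‖g - h j‖ * ‖x j‖ := (g - h j).le_opNorm _
        _ ≤ ‖g - h j‖ * 1 := by gcongr; exact hx1 j
        _ = _ := mul_one _
    have h6 := hx2 j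
    have h7 : ‖g‖ ≤ ‖h j‖ + ‖g - h j‖ := by
      have := norm_add_le (h j) (g - h j)
      rwa [add_sub_cancel] at this
    have hj' : ‖g - h j‖ < ‖g‖ / 4 := hj
    linarith
  rw [← isSeparable_univ_iff]
  have h1 : IsSeparable (Set.range x) := (Set.countable_range x).isSeparable
  have h2 := (h1.span (R := ℝ)).closure
  have h3 : closure ((Submodule.span ℝ (Set.range x) : Submodule ℝ X) : Set X) = Set.univ := by
    rw [← Submodule.topologicalClosure_coe, htop]
    rfl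
  rwa [h3] at h2

/-- Normalised weakly null sequences exist. -/
theorem exists_weaklyNull (hinf : ¬ FiniteDimensional ℝ X) (y : ℕ → (X →L[ℝ] ℝ))
    (hy : (Submodule.span ℝ (Set.range y)).topologicalClosure = ⊤) :
    ∃ u : ℕ → X, (∀ n, ‖u n‖ = 1) ∧ ∀ h : X →L[ℝ] ℝ, Tendsto (fun n => h (u n)) atTop (𝓝 0) := by
  have hu : ∀ n : ℕ, ∃ u : X, ‖u‖ = 1 ∧ ∀ i, i ≤ n → y i u = 0 := by
    intro n
    let L : X →ₗ[ℝ] (Fin (n + 1) → ℝ) := LinearMap.pi fun i => (y i : X →ₗ[ℝ] ℝ)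
    have hL : ¬ Function.Injective L := by
      intro hinj
      exact hinf (FiniteDimensional.of_injective L hinj)
    rw [← LinearMap.ker_eq_bot, Submodule.eq_bot_iff] at hL
    push Not at hL
    obtain ⟨v, hv1, hv2⟩ := hL
    refine ⟨‖v‖⁻¹ • v, ?_, fun i hi => ?_⟩
    · rw [norm_smul, norm_inv, norm_norm, inv_mul_cancel₀ (norm_ne_zero_iff.2 hv2)]
    · have h1 : L v ⟨i, Nat.lt_succ_of_le hi⟩ = 0 := by
        rw [LinearMap.mem_ker] at hv1
        rw [hv1]
        rfl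
      have h2 : y i v = 0 := h1
      rw [map_smul, h2, smul_zero]
  choose u hu1 hu2 using hu
  refine ⟨u, hu1, fun h => ?_⟩
  rw [Metric.tendsto_atTop]
  intro ε hε
  have hmem : h ∈ closure ((Submodule.span ℝ (Set.range y) : Submodule ℝ (X →L[ℝ] ℝ)) :
      Set (X →L[ℝ] ℝ)) := by
    rw [← Submodule.topologicalClosure_coe, hy]
    trivial
  obtain ⟨g, hg, hgh⟩ := Metric.mem_closure_iff.1 hmem ε hε
  have hev : ∃ N : ℕ, ∀ n, N ≤ n → g (u n) = 0 := by
    refine Submodule.span_induction (p := fun g _ => ∃ N : ℕ, ∀ n, N ≤ n → g (u n) = 0)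
      ?_ ?_ ?_ ?_ hg
    · rintro _ ⟨i, rfl⟩
      exact ⟨i, fun n hn => hu2 n i hn⟩
    · exact ⟨0, fun n _ => rfl⟩
    · rintro g1 g2 _ _ ⟨N1, h1⟩ ⟨N2, h2⟩
      refine ⟨max N1 N2, fun n hn => ?_⟩
      change g1 (u n) + g2 (u n) = 0
      rw [h1 n ((le_max_left _ _).trans hn), h2 n ((le_max_right _ _).trans hn), add_zero]
    · rintro c g1 _ ⟨N1, h1⟩
      refine ⟨N1, fun n hn => ?_⟩
      change c * g1 (u n) = 0
      rw [h1 n hn, mul_zero]
  obtain ⟨N, hN⟩ := hev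
  refine ⟨N, fun n hn => ?_⟩
  rw [dist_zero_right]
  have h1 : h (u n) = (h - g) (u n) := by
    change h (u n) = h (u n) - g (u n)
    rw [hN n hn, sub_zero]
  rw [h1]
  rw [dist_eq_norm] at hgh
  calc ‖(h - g) (u n)‖ ≤ ‖h - g‖ * ‖u n‖ := (h - g).le_opNorm _
    _ = ‖h - g‖ := by rw [hu1, mul_one]
    _ < ε := hgh

/-- An infinite-dimensional reflexive space has an infinite-dimensional quotient with a separating
sequence of functionals. -/
theorem exists_quot (hinf : ¬ FiniteDimensional ℝ E) :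
    ∃ (M : Submodule ℝ E) (_ : IsClosed (M : Set E)) (y : ℕ → ((E ⧸ M) →L[ℝ] ℝ)),
      MetricQuot (M.mkQL : E →L[ℝ] E ⧸ M) ∧ (∀ x : E ⧸ M, (∀ i, y i x = 0) → x = 0) ∧
      ¬ FiniteDimensional ℝ (E ⧸ M) := by
  have hdual : ¬ FiniteDimensional ℝ (E →L[ℝ] ℝ) := by
    intro hfin
    apply hinf
    have h1 : FiniteDimensional ℝ ((E →L[ℝ] ℝ) →L[ℝ] ℝ) := inferInstance
    exact FiniteDimensional.of_injective
      (NormedSpace.inclusionInDoubleDual ℝ E : E →ₗ[ℝ] ((E →L[ℝ] ℝ) →L[ℝ] ℝ))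
      (NormedSpace.inclusionInDoubleDualLi ℝ (E := E)).injective
  let b := Module.Basis.ofVectorSpace ℝ (E →L[ℝ] ℝ)
  have hbi : Infinite (Module.Basis.ofVectorSpaceIndex ℝ (E →L[ℝ] ℝ)) := by
    by_contra hc
    rw [not_infinite_iff_finite] at hc
    exact hdual (Module.Finite.of_basis b)
  let e : ℕ ↪ Module.Basis.ofVectorSpaceIndex ℝ (E →L[ℝ] ℝ) := Infinite.natEmbedding _
  have hli : LinearIndependent ℝ (fun n : ℕ => b (e n)) :=
    b.linearIndependent.comp _ e.injective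
  let M : Submodule ℝ E := ⨅ n : ℕ, LinearMap.ker ((b (e n) : E →L[ℝ] ℝ) : E →ₗ[ℝ] ℝ)
  have hMmem : ∀ x, x ∈ M ↔ ∀ n, b (e n) x = 0 := by
    intro x
    simp only [M, Submodule.mem_iInf]
    rfl
  have hMc : IsClosed (M : Set E) := by
    have : (M : Set E) = ⋂ n : ℕ, {x | b (e n) x = 0} := by
      ext x
      rw [SetLike.mem_coe, hMmem]
      simp
    rw [this]
    exact isClosed_iInter fun n => isClosed_eq (b (e n)).continuous continuous_const
  have hle : ∀ n, M ≤ LinearMap.ker ((b (e n) : E →L[ℝ] ℝ) : E →ₗ[ℝ] ℝ) := fun n => iInf_le _ n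
  refine ⟨M, hMc, fun n => M.liftQL (b (e n)) (hle n), ⟨fun x => ?_, fun x ε hε => ?_⟩, ?_, ?_⟩
  · exact Submodule.Quotient.norm_mk_le M x
  · obtain ⟨m, hm1, hm2⟩ := Submodule.Quotient.norm_mk_lt x hε
    exact ⟨m, hm1, hm2⟩
  · intro x hx
    obtain ⟨x', rfl⟩ := Submodule.Quotient.mk_surjective M x
    rw [Submodule.Quotient.mk_eq_zero, hMmem]
    intro n
    exact hx n
  · intro hfin
    have h1 : LinearIndependent ℝ (fun n : ℕ => M.liftQL (b (e n)) (hle n)) := by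
      let D : ((E ⧸ M) →L[ℝ] ℝ) →ₗ[ℝ] (E →L[ℝ] ℝ) :=
        { toFun := fun g => g.comp M.mkQL
          map_add' := fun g g' => by ext; rfl
          map_smul' := fun c g => by ext; rfl }
      refine LinearIndependent.of_comp D ?_
      have : (D ∘ fun n : ℕ => M.liftQL (b (e n)) (hle n)) = fun n : ℕ => b (e n) := by
        funext n
        ext x
        rfl
      rw [this]
      exact hli
    have h2 : FiniteDimensional ℝ ((E ⧸ M) →L[ℝ] ℝ) := inferInstance
    exact Module.Finite.not_linearIndependent_of_infinite _ h1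

/-- **The reflexive case.** -/
theorem star [CompleteSpace E] (hrefl : Function.Surjective (NormedSpace.inclusionInDoubleDual ℝ E))
    (hinf : ¬ FiniteDimensional ℝ E) :
    ∃ (f : E →L[ℝ] ℝ) (g : ℕ → (E →L[ℝ] ℝ)) (z : ℕ → E) (h : E →L[ℝ] ℝ) (c : ℝ),
      ‖f‖ < 1 ∧ (∀ k, ‖g k‖ ≤ 1) ∧ (∀ x, Tendsto (fun k => g k x) atTop (𝓝 (f x))) ∧
      (∀ k, ‖z k‖ = 1) ∧ Tendsto (fun k => g k (z k)) atTop (𝓝 1) ∧
      Tendsto (fun k => h (z k)) atTop (𝓝 c) ∧ c ≠ 0 := by
  obtain ⟨M, hM, y, hQ, hy, hinfM⟩ := exists_quot hinf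
  have hreflM := quot_reflexive hQ hrefl
  have hyd := dense_of_separating hreflM y hy
  have hsd := separable_dual y hyd
  have hs : SeparableSpace (E ⧸ M) := separable_of_dual
  obtain ⟨u, hu1, hu2⟩ := exists_weaklyNull hinfM y hyd
  obtain ⟨f, g, z, h, c, hf, hg, hgf, hz, hgz, hhz, hc⟩ := core hreflM u hu1 hu2
  -- lifts
  have hlift : ∀ k : ℕ, ∃ e : E, M.mkQL e = z k ∧ ‖e‖ < 1 + 1 / ((k : ℝ) + 1) := by
    intro k
    obtain ⟨e, he1, he2⟩ := hQ.lift (z k) (1 / ((k : ℝ) + 1)) (by positivity)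
    rw [hz] at he2
    exact ⟨e, he1, he2⟩
  choose e he1 he2 using hlift
  have he3 : ∀ k, 1 ≤ ‖e k‖ := by
    intro k
    have := hQ.le (e k)
    rw [he1, hz] at this
    exact this
  have hlim : Tendsto (fun k => ‖e k‖) atTop (𝓝 1) := by
    refine tendsto_of_tendsto_of_tendsto_of_le_of_le tendsto_const_nhds ?_ he3 (fun k => (he2 k).le)
    have := tendsto_one_div_add_atTop_nhds_zero_nat (𝕜 := ℝ) |>.const_add 1
    rwa [add_zero] at this
  refine ⟨f.comp M.mkQL, fun k => (g k).comp M.mkQL, fun k => ‖e k‖⁻¹ • e k, h.comp M.mkQL, c,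
    ?_, ?_, ?_, ?_, ?_, ?_, hc⟩
  · rw [norm_comp_quot hQ]; exact hf
  · intro k
    rw [norm_comp_quot hQ]; exact hg k
  · intro x
    exact hgf _
  · intro k
    have : ‖e k‖ ≠ 0 := by linarith [he3 k]
    rw [norm_smul, norm_inv, norm_norm, inv_mul_cancel₀ this]
  · have h1 : Tendsto (fun k => ‖e k‖⁻¹ * g k (z k)) atTop (𝓝 (1⁻¹ * 1)) :=
      (hlim.inv₀ one_ne_zero).mul hgz
    rw [inv_one, one_mul] at h1
    refine h1.congr fun k => ?_
    rw [map_smul, smul_eq_mul, ContinuousLinearMap.comp_apply, he1]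
  · have h1 : Tendsto (fun k => ‖e k‖⁻¹ * h (z k)) atTop (𝓝 (1⁻¹ * c)) :=
      (hlim.inv₀ one_ne_zero).mul hhz
    rw [inv_one, one_mul] at h1
    refine h1.congr fun k => ?_
    rw [map_smul, smul_eq_mul, ContinuousLinearMap.comp_apply, he1]

end Pool.Agent.E8helper89.WMP
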