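import Mathlib
import Pool.Agent.E8helper89.WMP.Red

/-!
# An operator into `ℓ_∞` that does not attain its norm

Every infinite-dimensional Banach space `E` admits an operator `T` into `ℓ_∞` which does not attain
its norm although it has a maximizing sequence which is not weakly null.
-/

set_option autoImplicit false

open Filter Topology
open scoped ENNReal

namespace Pool.Agent.E8helper89.WMP

variable {𝕜 : Type*} [RCLike 𝕜] {E : Type*} [NormedAddCommGroup E] [NormedSpace 𝕜 E]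

/-- The operator into `ℓ_∞` given by a bounded sequence of functionals. -/
theorem exists_operator (G : ℕ → (E →L[𝕜] 𝕜)) (C : ℝ) (hC : 0 ≤ C) (hG : ∀ k, ‖G k‖ ≤ C) :
    ∃ T : E →L[𝕜] lp (fun _ : ℕ => 𝕜) ∞, ∀ x k, T x k = G k x := by
  have hmem : ∀ x : E, Memℓp (fun k => G k x) ∞ := by
    intro x
    refine memℓp_infty ⟨C * ‖x‖, ?_⟩
    rintro _ ⟨k, rfl⟩
    exact (G k).le_of_opNorm_le (hG k) x
  let L : E →ₗ[𝕜] lp (fun _ : ℕ => 𝕜) ∞ :=
    { toFun := fun x => ⟨fun k => G k x, hmem x⟩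
      map_add' := fun x y => by
        ext k
        exact map_add (G k) x y
      map_smul' := fun c x => by
        ext k
        exact map_smul (G k) c x }
  refine ⟨L.mkContinuous C fun x => ?_, fun x k => rfl⟩
  refine lp.norm_le_of_forall_le (by positivity) fun k => ?_
  exact (G k).le_of_opNorm_le (hG k) x

theorem norm_le_of_forall (T : E →L[𝕜] lp (fun _ : ℕ => 𝕜) ∞) (G : ℕ → (E →L[𝕜] 𝕜))
    (hT : ∀ x k, T x k = G k x) (x : E) (c : ℝ) (hc : 0 ≤ c) (h : ∀ k, ‖G k x‖ ≤ c) :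
    ‖T x‖ ≤ c :=
  lp.norm_le_of_forall_le hc fun k => by rw [hT]; exact h k

theorem le_norm_of (T : E →L[𝕜] lp (fun _ : ℕ => 𝕜) ∞) (G : ℕ → (E →L[𝕜] 𝕜))
    (hT : ∀ x k, T x k = G k x) (x : E) (k : ℕ) : ‖G k x‖ ≤ ‖T x‖ := by
  rw [← hT]
  exact lp.norm_apply_le_norm ENNReal.top_ne_zero (T x) k

section Ext

variable (𝕜) [NormedSpace ℝ E] [IsScalarTower ℝ 𝕜 E]

/-- the `𝕜`-linear functional with real part `q` -/
noncomputable def ext (q : E →L[ℝ] ℝ) : E →L[𝕜] 𝕜 := StrongDual.extendRCLike (𝕜 := 𝕜) q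

theorem ext_re (q : E →L[ℝ] ℝ) (x : E) : RCLike.re (ext 𝕜 q x) = q x :=
  Module.Dual.re_extendRCLike_apply (𝕜 := 𝕜) (q : Module.Dual ℝ E) x

theorem ext_bound (q : E →L[ℝ] ℝ) (x : E) : ‖ext 𝕜 q x‖ ≤ ‖q‖ * ‖x‖ :=
  StrongDual.norm_extendRCLike_bound (𝕜 := 𝕜) q x

theorem ext_norm (q : E →L[ℝ] ℝ) : ‖ext 𝕜 q‖ = ‖q‖ := StrongDual.norm_extendRCLike (𝕜 := 𝕜) q

theorem ext_apply (q : E →L[ℝ] ℝ) (x : E) :
    ext 𝕜 q x = (q x : 𝕜) - (RCLike.I : 𝕜) * (q ((RCLike.I : 𝕜) • x) : 𝕜) := rfl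

theorem ext_sq (q : E →L[ℝ] ℝ) (x : E) :
    ‖ext 𝕜 q x‖ ^ 2 = q ((starRingEnd 𝕜) (ext 𝕜 q x) • x) :=
  Module.Dual.norm_extendRCLike_apply_sq (𝕜 := 𝕜) (q : Module.Dual ℝ E) x

end Ext

/-- **Main theorem.** -/
theorem key [NormedSpace ℝ E] [IsScalarTower ℝ 𝕜 E] [CompleteSpace E]
    (hinf : ¬ FiniteDimensional ℝ E) :
    ∃ (T : E →L[𝕜] lp (fun _ : ℕ => 𝕜) ∞) (z : ℕ → E), (∀ n, ‖z n‖ = 1) ∧
      Tendsto (fun n => ‖T (z n)‖) atTop (𝓝 ‖T‖) ∧
      (¬ ∀ f : E →L[𝕜] 𝕜, Tendsto (fun n => f (z n)) atTop (𝓝 0)) ∧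
      ∀ x, ‖x‖ = 1 → ‖T x‖ ≠ ‖T‖ := by
  by_cases hrefl : Function.Surjective (NormedSpace.inclusionInDoubleDual ℝ E)
  · -- the reflexive case
    obtain ⟨f, g, z, h, c, hf, hg, hgf, hz, hgz, hhz, hc⟩ := star hrefl hinf
    let r : ℕ → ℝ := fun k => 1 - 1 / ((k : ℝ) + 2)
    have hr0 : ∀ k, 0 ≤ r k := by
      intro k
      have : 1 / ((k : ℝ) + 2) ≤ 1 := by
        rw [div_le_one (by positivity)]
        linarith [(Nat.cast_nonneg k : (0 : ℝ) ≤ k)]
      simp only [r]
      linarith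
    have hr1 : ∀ k, r k < 1 := by
      intro k
      have : 0 < 1 / ((k : ℝ) + 2) := by positivity
      simp only [r]
      linarith
    have hrlim : Tendsto r atTop (𝓝 1) := by
      have h1 : Tendsto (fun k : ℕ => 1 / ((k : ℝ) + 2)) atTop (𝓝 0) := by
        have := (tendsto_one_div_add_atTop_nhds_zero_nat (𝕜 := ℝ)).comp (tendsto_add_atTop_nat 1)
        refine this.congr fun k => ?_
        simp only [Function.comp_apply]
        push_cast
        ring
      have := h1.const_sub 1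
      rwa [sub_zero] at this
    let G : ℕ → (E →L[𝕜] 𝕜) := fun k => ((r k : ℝ) : 𝕜) • ext 𝕜 (g k)
    have hGx : ∀ k x, ‖G k x‖ = r k * ‖(ext 𝕜 (g k)) x‖ := by
      intro k x
      change ‖((r k : ℝ) : 𝕜) • (ext 𝕜 (g k)) x‖ = _
      rw [norm_smul, RCLike.norm_ofReal, abs_of_nonneg (hr0 k)]
    have hext : ∀ k x, ‖(ext 𝕜 (g k)) x‖ ≤ ‖x‖ := by
      intro k x
      calc ‖(ext 𝕜 (g k)) x‖ ≤ ‖g k‖ * ‖x‖ :=
            ext_bound 𝕜 (g k) x
        _ ≤ 1 * ‖x‖ := by gcongr; exact hg k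
        _ = _ := one_mul _
    have hGn : ∀ k, ‖G k‖ ≤ 1 := by
      intro k
      refine ContinuousLinearMap.opNorm_le_bound _ zero_le_one fun x => ?_
      rw [hGx, one_mul]
      calc r k * ‖(ext 𝕜 (g k)) x‖ ≤ 1 * ‖x‖ := by
            gcongr
            · exact (hr1 k).le
            · exact hext k x
        _ = _ := one_mul _
    obtain ⟨T, hT⟩ := exists_operator G 1 zero_le_one hGn
    have hT1 : ∀ x, ‖T x‖ ≤ 1 * ‖x‖ := fun x =>
      norm_le_of_forall T G hT x _ (by positivity) fun k => (G k).le_of_opNorm_le (hGn k) x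
    have hTn : ‖T‖ ≤ 1 := T.opNorm_le_bound zero_le_one hT1
    have hlow : ∀ k, r k * g k (z k) ≤ ‖T (z k)‖ := by
      intro k
      refine le_trans ?_ (le_norm_of T G hT (z k) k)
      rw [hGx]
      have h1 : g k (z k) ≤ ‖(ext 𝕜 (g k)) (z k)‖ := by
        have h2 : RCLike.re ((ext 𝕜 (g k)) (z k)) = g k (z k) := ext_re 𝕜 _ _
        rw [← h2]
        exact RCLike.re_le_norm _
      have := hr0 k
      gcongr
    have hlim1 : Tendsto (fun k => r k * g k (z k)) atTop (𝓝 1) := by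
      have := hrlim.mul hgz
      rwa [one_mul] at this
    have hTz : Tendsto (fun k => ‖T (z k)‖) atTop (𝓝 1) := by
      refine tendsto_of_tendsto_of_tendsto_of_le_of_le hlim1 tendsto_const_nhds hlow fun k => ?_
      have := hT1 (z k)
      rwa [hz, one_mul] at this
    have hTnorm : ‖T‖ = 1 := by
      refine le_antisymm hTn (le_of_tendsto hTz (Eventually.of_forall fun k => ?_))
      have := T.le_opNorm (z k)
      rwa [hz, mul_one] at this
    refine ⟨T, z, hz, by rw [hTnorm]; exact hTz, fun hall => ?_, fun x hx => ?_⟩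
    · -- not weakly null
      have h1 := hall (ext 𝕜 h)
      have h2 := (RCLike.continuous_re.tendsto (0 : 𝕜)).comp h1
      have h3 : (RCLike.re ∘ fun n => (ext 𝕜 h) (z n)) = fun n => h (z n) := by
        funext n
        exact ext_re 𝕜 _ _
      rw [h3, map_zero] at h2
      exact hc (tendsto_nhds_unique hhz h2)
    · -- the norm is not attained
      rw [hTnorm]
      have hlimG : Tendsto (fun k => (ext 𝕜 (g k)) x) atTop
          (𝓝 ((ext 𝕜 f) x)) := by
        simp only [ext_apply]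
        have e2 : Continuous (fun t : ℝ => (t : 𝕜)) := RCLike.continuous_ofReal
        exact ((e2.tendsto _).comp (hgf x)).sub
          (((e2.tendsto _).comp (hgf ((RCLike.I : 𝕜) • x))).const_mul _)
      have hfx : ‖(ext 𝕜 f) x‖ ≤ ‖f‖ := by
        have := ext_bound 𝕜 f x
        rwa [hx, mul_one] at this
      have hev : ∀ᶠ k in atTop, ‖(ext 𝕜 (g k)) x‖ < (1 + ‖f‖) / 2 :=
        hlimG.norm.eventually_lt_const (by linarith)
      obtain ⟨K, hK⟩ := eventually_atTop.1 hev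
      have hbound : ‖T x‖ ≤ max ((1 + ‖f‖) / 2) (r K) := by
        refine norm_le_of_forall T G hT x _ ?_ fun k => ?_
        · exact (hr0 K).trans (le_max_right _ _)
        · rw [hGx]
          rcases le_total K k with hk | hk
          · refine le_trans ?_ (le_max_left _ _)
            calc r k * ‖(ext 𝕜 (g k)) x‖
                ≤ 1 * ‖(ext 𝕜 (g k)) x‖ := by gcongr; exact (hr1 k).le
              _ = _ := one_mul _
              _ ≤ _ := (hK k hk).le
          · refine le_trans ?_ (le_max_right _ _)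
            have h1 := hext k x
            rw [hx] at h1
            have h2 : r k ≤ r K := by
              have : 1 / ((K : ℝ) + 2) ≤ 1 / ((k : ℝ) + 2) := by
                gcongr
              simp only [r]
              linarith
            calc r k * ‖(ext 𝕜 (g k)) x‖ ≤ r k * 1 := by
                  have := hr0 k
                  gcongr
              _ = r k := mul_one _
              _ ≤ r K := h2
      refine ne_of_lt (hbound.trans_lt (max_lt (by linarith) (hr1 K)))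
  · -- the nonreflexive case: James' theorem
    obtain ⟨F, hF⟩ := james hrefl
    have hFpos : 0 < ‖F‖ := by simpa using hF 0 (by simp)
    let H : E →L[𝕜] 𝕜 := ext 𝕜 F
    have hH : ‖H‖ = ‖F‖ := ext_norm 𝕜 F
    obtain ⟨T, hT⟩ := exists_operator (fun _ : ℕ => H) ‖H‖ (norm_nonneg _) (fun _ => le_rfl)
    have hTx : ∀ x, ‖T x‖ = ‖H x‖ := fun x =>
      le_antisymm (norm_le_of_forall T _ hT x _ (norm_nonneg _) fun _ => le_rfl)
        (le_norm_of T _ hT x 0)
    have hTn : ‖T‖ = ‖H‖ := by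
      apply le_antisymm
      · refine T.opNorm_le_bound (norm_nonneg _) fun x => ?_
        rw [hTx]
        exact H.le_opNorm x
      · refine H.opNorm_le_bound (norm_nonneg _) fun x => ?_
        rw [← hTx]
        exact T.le_opNorm x
    have hseq : ∀ n : ℕ, ∃ x : E, ‖x‖ = 1 ∧ ‖H‖ * (1 - 1 / ((n : ℝ) + 1)) ≤ ‖H x‖ := by
      intro n
      have hpos : 0 < 1 / ((n : ℝ) + 1) := by positivity
      obtain ⟨x, hx1, hx2⟩ := H.exists_lt_apply_of_lt_opNorm
        (show ‖H‖ * (1 - 1 / ((n : ℝ) + 1)) < ‖H‖ by rw [hH]; nlinarith)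
      have hn1 : 0 ≤ ‖H‖ * (1 - 1 / ((n : ℝ) + 1)) := by
        have : 1 / ((n : ℝ) + 1) ≤ 1 := by
          rw [div_le_one (by positivity)]
          linarith [(Nat.cast_nonneg n : (0 : ℝ) ≤ n)]
        exact mul_nonneg (norm_nonneg _) (by linarith)
      have hx0 : x ≠ 0 := by
        rintro rfl
        rw [map_zero, norm_zero] at hx2
        linarith
      have hxn : 0 < ‖x‖ := norm_pos_iff.2 hx0
      refine ⟨((‖x‖⁻¹ : ℝ) : 𝕜) • x, ?_, ?_⟩
      · rw [norm_smul, RCLike.norm_ofReal, abs_of_pos (by positivity), inv_mul_cancel₀ hxn.ne']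
      · rw [map_smul, norm_smul, RCLike.norm_ofReal, abs_of_pos (by positivity)]
        refine hx2.le.trans ?_
        have : 1 ≤ ‖x‖⁻¹ := (one_le_inv₀ hxn).2 hx1.le
        calc ‖H x‖ = 1 * ‖H x‖ := (one_mul _).symm
          _ ≤ ‖x‖⁻¹ * ‖H x‖ := by gcongr
    choose z hz1 hz2 using hseq
    have hlim : Tendsto (fun n => ‖H (z n)‖) atTop (𝓝 ‖H‖) := by
      have h1 : Tendsto (fun n : ℕ => ‖H‖ * (1 - 1 / ((n : ℝ) + 1))) atTop (𝓝 ‖H‖) := by
        have := ((tendsto_one_div_add_atTop_nhds_zero_nat (𝕜 := ℝ)).const_sub 1).const_mul ‖H‖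
        rwa [sub_zero, mul_one] at this
      refine tendsto_of_tendsto_of_tendsto_of_le_of_le h1 tendsto_const_nhds hz2 fun n => ?_
      have := H.le_opNorm (z n)
      rwa [hz1, mul_one] at this
    refine ⟨T, z, hz1, ?_, fun hall => ?_, fun x hx hTxT => ?_⟩
    · rw [hTn]
      simp only [hTx]
      exact hlim
    · have h1 := (hall H).norm
      rw [norm_zero] at h1
      have h2 := tendsto_nhds_unique hlim h1
      rw [hH] at h2
      exact hFpos.ne' h2
    · rw [hTx, hTn, hH] at hTxT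
      have h1 : ‖H x‖ ^ 2 = F ((starRingEnd 𝕜) (H x) • x) := ext_sq 𝕜 F x
      set y : E := ((‖H x‖⁻¹ : ℝ) : ℝ) • ((starRingEnd 𝕜) (H x) • x) with hy
      have hHx : 0 < ‖H x‖ := by rw [hTxT]; exact hFpos
      have hyn : ‖y‖ = 1 := by
        rw [hy, norm_smul, norm_smul, RCLike.norm_conj, hx, mul_one, norm_inv, norm_norm,
          inv_mul_cancel₀ hHx.ne']
      have h2 := hF y hyn.le
      rw [hy, map_smul, ← h1, smul_eq_mul, hTxT] at h2
      have h3 : ‖F‖⁻¹ * ‖F‖ ^ 2 = ‖F‖ := by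
        field_simp
      rw [h3] at h2
      exact lt_irrefl _ h2

end Pool.Agent.E8helper89.WMP
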